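import Mathlib

/-! Chebyshev type bounds for the number and the reciprocals of primes. -/

namespace NSC

open Finset Real

theorem block_le {T : ℕ} (hT : 2 ≤ T) :
    (∑ p ∈ (Ioc T (2 * T)).filter Nat.Prime, (1 : ℝ) / p) ≤ 4 * log 2 / log T := by
  have hT0 : (0 : ℝ) < T := by positivity
  have hlog : 0 < log (T : ℝ) := log_pos (by exact_mod_cast hT)
  have h1 : (∑ p ∈ (Ioc T (2 * T)).filter Nat.Prime, log (T : ℝ)) ≤ log 4 * (2 * T) := by
    calc (∑ p ∈ (Ioc T (2 * T)).filter Nat.Prime, log (T : ℝ))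
        ≤ ∑ p ∈ (Ioc T (2 * T)).filter Nat.Prime, log (p : ℝ) := by
          apply sum_le_sum
          intro p hp
          rw [mem_filter, mem_Ioc] at hp
          exact log_le_log hT0 (by exact_mod_cast hp.1.1.le)
      _ ≤ ∑ p ∈ Nat.primesLE (2 * T), log (p : ℝ) := by
          apply sum_le_sum_of_subset_of_nonneg
          · intro p hp
            rw [mem_filter, mem_Ioc] at hp
            exact Nat.mem_primesLE.2 ⟨hp.1.2, hp.2⟩
          · intro p _ _
            exact log_natCast_nonneg p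
      _ = Chebyshev.theta ((2 * T : ℕ) : ℝ) := (Chebyshev.theta_eq_sum_primesLE_log _).symm
      _ ≤ log 4 * ((2 * T : ℕ) : ℝ) := Chebyshev.theta_le_log4_mul_x (by positivity)
      _ = log 4 * (2 * T) := by push_cast; ring
  have h2 : (∑ p ∈ (Ioc T (2 * T)).filter Nat.Prime, (1 : ℝ) / p) ≤
      ∑ p ∈ (Ioc T (2 * T)).filter Nat.Prime, (1 : ℝ) / T := by
    apply sum_le_sum
    intro p hp
    rw [mem_filter, mem_Ioc] at hp
    exact one_div_le_one_div_of_le hT0 (by exact_mod_cast hp.1.1.le)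
  rw [sum_const, nsmul_eq_mul] at h1 h2
  refine h2.trans ?_
  rw [le_div_iff₀ hlog]
  have h4 : log (4 : ℝ) = 2 * log 2 := by
    rw [show (4 : ℝ) = 2 ^ 2 by norm_num, log_pow]; norm_num
  rw [h4] at h1
  have : (((Ioc T (2 * T)).filter Nat.Prime).card : ℝ) * (1 / T) * log T =
      ((((Ioc T (2 * T)).filter Nat.Prime).card : ℝ) * log T) / T := by ring
  rw [this, div_le_iff₀ hT0]
  linarith

theorem blocks_le {y : ℕ} (hy : 2 ≤ y) (j : ℕ) :
    (∑ p ∈ (Ioc y (2 ^ j * y)).filter Nat.Prime, (1 : ℝ) / p) ≤ j * (4 * log 2 / log y) := by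
  induction j with
  | zero => simp
  | succ j ih =>
    have h2 : y ≤ 2 ^ j * y := Nat.le_mul_of_pos_left _ (by positivity)
    have e : 2 ^ (j + 1) * y = 2 * (2 ^ j * y) := by ring
    have h3 : 2 ^ j * y ≤ 2 * (2 ^ j * y) := by omega
    rw [e, ← Ioc_union_Ioc_eq_Ioc h2 h3, filter_union, sum_union]
    · have hb := block_le (T := 2 ^ j * y) (by omega)
      have hlog : 0 < log (y : ℝ) := log_pos (by exact_mod_cast hy)
      have hl2 : 0 < log 2 := log_pos (by norm_num)
      have h4 : 4 * log 2 / log ((2 ^ j * y : ℕ) : ℝ) ≤ 4 * log 2 / log y := by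
        apply div_le_div_of_nonneg_left (by positivity) hlog
        apply log_le_log (by positivity)
        exact_mod_cast h2
      push_cast at hb h4 ⊢
      linarith
    · apply disjoint_filter_filter
      rw [disjoint_left]
      intro p hp hp'
      rw [mem_Ioc] at hp hp'
      omega

theorem sum_inv_le {y w : ℕ} (hy : 2 ≤ y) (hyw : y ≤ w) :
    (∑ p ∈ (Ioc y w).filter Nat.Prime, (1 : ℝ) / p) ≤ 4 * (log (w / y) + log 2) / log y := by
  have hy0 : (0 : ℝ) < y := by positivity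
  have hw0 : (0 : ℝ) < w := by exact_mod_cast (by omega : 0 < w)
  have hlog : 0 < log (y : ℝ) := log_pos (by exact_mod_cast hy)
  have hl2 : 0 < log 2 := log_pos (by norm_num)
  have hwy : 0 ≤ log ((w : ℝ) / y) := log_nonneg (by
    rw [one_le_div hy0]; exact_mod_cast hyw)
  set j := ⌈log ((w : ℝ) / y) / log 2⌉₊ with hj
  have h1 : log ((w : ℝ) / y) / log 2 ≤ j := Nat.le_ceil _
  have h2 : (j : ℝ) < log ((w : ℝ) / y) / log 2 + 1 := Nat.ceil_lt_add_one (by positivity)
  have h3 : w ≤ 2 ^ j * y := by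
    have : log ((w : ℝ) / y) ≤ log ((2 : ℝ) ^ j) := by
      rw [log_pow]
      rwa [div_le_iff₀ hl2] at h1
    have h4 : (w : ℝ) / y ≤ 2 ^ j := (log_le_log_iff (by positivity) (by positivity)).1 this
    rw [div_le_iff₀ hy0] at h4
    exact_mod_cast h4
  have h5 := blocks_le hy j
  calc (∑ p ∈ (Ioc y w).filter Nat.Prime, (1 : ℝ) / p)
      ≤ ∑ p ∈ (Ioc y (2 ^ j * y)).filter Nat.Prime, (1 : ℝ) / p := by
        apply sum_le_sum_of_subset_of_nonneg
        · apply filter_subset_filter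
          exact Ioc_subset_Ioc_right h3
        · intro p _ _; positivity
    _ ≤ j * (4 * log 2 / log y) := h5
    _ ≤ (log ((w : ℝ) / y) / log 2 + 1) * (4 * log 2 / log y) := by
        apply mul_le_mul_of_nonneg_right h2.le (by positivity)
    _ = 4 * (log (w / y) + log 2) / log y := by field_simp

theorem sum_inv_le_sqrt {Y : ℕ} (hY : 3 ≤ Y) :
    (∑ p ∈ (Icc 1 Y).filter Nat.Prime, (1 : ℝ) / p) ≤ 5 * √(log Y) + 5 := by
  have hY0 : (0 : ℝ) < Y := by positivity
  have hL : 1 ≤ log (Y : ℝ) := by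
    rw [le_log_iff_exp_le hY0]
    have : exp 1 < 3 := by have := exp_one_lt_d9; linarith
    have h3 : (3 : ℝ) ≤ Y := by exact_mod_cast hY
    linarith
  set s := √(log (Y : ℝ)) with hs
  have hs1 : 1 ≤ s := by rw [hs, Real.one_le_sqrt]; exact hL
  have hs2 : s ^ 2 = log Y := by rw [hs]; exact sq_sqrt (by linarith)
  set y := ⌈exp s⌉₊ with hy
  have hy1 : exp s ≤ y := Nat.le_ceil _
  have hy2 : (y : ℝ) < exp s + 1 := Nat.ceil_lt_add_one (exp_pos _).le
  have he2 : 2 < exp s := by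
    have h1 : exp 1 ≤ exp s := exp_le_exp.2 hs1
    have := exp_one_gt_d9
    linarith
  have hy3 : 2 < y := by exact_mod_cast he2.trans_le hy1
  have hy0 : (0 : ℝ) < y := by positivity
  have hlogy : s ≤ log y := by rw [le_log_iff_exp_le hy0]; exact hy1
  have hl2 : log 2 < 1 := by have := log_two_lt_d9; linarith
  have hl20 : 0 < log 2 := log_pos (by norm_num)
  have hlogy2 : log y ≤ s + log 2 := by
    have : (y : ℝ) ≤ exp s * 2 := by linarith
    calc log (y : ℝ) ≤ log (exp s * 2) := log_le_log hy0 this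
      _ = s + log 2 := by rw [log_mul (exp_pos _).ne' (by norm_num), log_exp]
  have hharm : ∀ n : ℕ, (∑ p ∈ (Icc 1 n).filter Nat.Prime, (1 : ℝ) / p) ≤ 1 + log n := by
    intro n
    have h4 := harmonic_le_one_add_log n
    rw [harmonic_eq_sum_Icc] at h4
    push_cast at h4
    refine le_trans ?_ h4
    calc (∑ p ∈ (Icc 1 n).filter Nat.Prime, (1 : ℝ) / p) ≤ ∑ p ∈ Icc 1 n, (1 : ℝ) / p := by
          apply sum_le_sum_of_subset_of_nonneg (filter_subset _ _)
          intro p _ _; positivity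
      _ = ∑ i ∈ Icc 1 n, ((i : ℝ))⁻¹ := by simp
  rcases le_total Y y with h | h
  · have h5 := hharm Y
    have h6 : log (Y : ℝ) ≤ log y := log_le_log hY0 (by exact_mod_cast h)
    linarith
  · have hsplit : (Icc 1 Y).filter Nat.Prime = (Icc 1 y).filter Nat.Prime ∪
        (Ioc y Y).filter Nat.Prime := by
      ext p
      simp only [mem_union, mem_filter, mem_Icc, mem_Ioc]
      constructor
      · rintro ⟨⟨h1, h2⟩, h3⟩
        by_cases h4 : p ≤ y
        · exact Or.inl ⟨⟨h1, h4⟩, h3⟩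
        · exact Or.inr ⟨⟨by omega, h2⟩, h3⟩
      · rintro (⟨⟨h1, h2⟩, h3⟩ | ⟨⟨h1, h2⟩, h3⟩)
        · exact ⟨⟨h1, by omega⟩, h3⟩
        · exact ⟨⟨by omega, h2⟩, h3⟩
    rw [hsplit, sum_union]
    · have h5 := hharm y
      have h6 := sum_inv_le (y := y) (w := Y) (by omega) h
      have h7 : log ((Y : ℝ) / y) ≤ log Y := by
        apply log_le_log (by positivity)
        apply div_le_self hY0.le
        exact_mod_cast (by omega : 1 ≤ y)
      have h8 : 4 * (log ((Y : ℝ) / y) + log 2) / log y ≤ 4 * (s ^ 2 + log 2) / s := by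
        rw [hs2]
        apply div_le_div₀ (by positivity) (by linarith) (by linarith) hlogy
      have h9 : 4 * (s ^ 2 + log 2) / s ≤ 4 * s + 3 := by
        rw [div_le_iff₀ (by linarith)]
        have := log_two_lt_d9
        nlinarith
      linarith
    · apply disjoint_filter_filter
      rw [disjoint_left]
      intro p hp hp'
      rw [mem_Icc] at hp
      rw [mem_Ioc] at hp'
      omega

theorem card_primes_le {Y : ℕ} (hY : 2 ≤ Y) :
    (((Icc 1 Y).filter Nat.Prime).card : ℝ) ≤ 4 * Y / log Y := by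
  have hY0 : (0 : ℝ) < Y := by positivity
  have hY1 : (1 : ℝ) < Y := by exact_mod_cast hY
  have hlog : 0 < log (Y : ℝ) := log_pos hY1
  have h1 := Chebyshev.pi_le_log4_mul_div hY1
  rw [Nat.floor_natCast, log_sqrt hY0.le] at h1
  have h2 : ((Icc 1 Y).filter Nat.Prime).card ≤ Nat.primeCounting Y := by
    have : Nat.primeCounting Y = (Nat.primesLE Y).card := by
      rw [Nat.primeCounting, Nat.primeCounting', Nat.count_eq_card_filter_range]
      rfl
    rw [this]
    apply card_le_card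
    intro p hp
    rw [mem_filter, mem_Icc] at hp
    exact Nat.mem_primesLE.2 ⟨hp.1.2, hp.2⟩
  have h3 : √(Y : ℝ) * log Y ≤ Y := by
    have h5 : log (√(Y : ℝ)) ≤ √(Y : ℝ) - 1 := log_le_sub_one_of_pos (by positivity)
    have h6 : log (√(Y : ℝ)) ≤ √(Y : ℝ) / 2 := by
      have h7 : log (√(Y : ℝ) / 2) ≤ √(Y : ℝ) / 2 - 1 := log_le_sub_one_of_pos (by positivity)
      rw [log_div (by positivity) (by norm_num)] at h7
      have := log_two_lt_d9
      linarith
    rw [log_sqrt hY0.le] at h6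
    have h8 : log (Y : ℝ) ≤ √(Y : ℝ) := by linarith
    calc √(Y : ℝ) * log Y ≤ √(Y : ℝ) * √(Y : ℝ) := by
          apply mul_le_mul_of_nonneg_left h8 (by positivity)
      _ = Y := mul_self_sqrt hY0.le
  have h4 : log 4 < 1.4 := by
    have e : log (4 : ℝ) = 2 * log 2 := by
      rw [show (4 : ℝ) = 2 ^ 2 by norm_num, log_pow]; norm_num
    have := log_two_lt_d9
    rw [e]; linarith
  calc (((Icc 1 Y).filter Nat.Prime).card : ℝ) ≤ (Nat.primeCounting Y : ℝ) := by exact_mod_cast h2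
    _ ≤ log 4 * Y / (log Y / 2) + √(Y : ℝ) := h1
    _ ≤ 4 * Y / log Y := by
      rw [le_div_iff₀ hlog]
      have e : (log 4 * Y / (log Y / 2) + √(Y : ℝ)) * log Y =
          2 * log 4 * Y + √(Y : ℝ) * log Y := by field_simp
      rw [e]
      nlinarith

/-- reciprocals of squares -/
theorem sum_inv_sq_le {z Y : ℕ} (hz : 1 ≤ z) :
    (∑ q ∈ (Ioc z Y).filter Nat.Prime, (1 : ℝ) / (q : ℝ) ^ 2) ≤ 1 / z := by
  rcases le_total z Y with h | h
  · calc (∑ q ∈ (Ioc z Y).filter Nat.Prime, (1 : ℝ) / (q : ℝ) ^ 2)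
        ≤ ∑ q ∈ Ioc z Y, (1 : ℝ) / (q : ℝ) ^ 2 := by
          apply sum_le_sum_of_subset_of_nonneg (filter_subset _ _)
          intro p _ _; positivity
      _ = ∑ q ∈ Ioc z Y, ((q : ℝ) ^ 2)⁻¹ := by simp
      _ ≤ (z : ℝ)⁻¹ - (Y : ℝ)⁻¹ := sum_Ioc_inv_sq_le_sub (by omega) h
      _ ≤ 1 / z := by
        have : (0 : ℝ) ≤ (Y : ℝ)⁻¹ := by positivity
        rw [one_div]; linarith
  · rw [Ioc_eq_empty (by omega)]
    simp

end NSC
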