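import Pool.Agent.helper37.NS.Rho2
import Pool.Agent.helper37.NS.Primes

/-! Upper bound for the number of `n ≤ X` with `n ^ 2 + 1` free of small primes and not cyclic. -/

namespace NSC

open Finset

/-- `n ^ 2 + 1` has no prime factor up to `z` -/
def Rough (z n : ℕ) : Prop := ∀ p, p.Prime → p ≤ z → ¬ p ∣ n ^ 2 + 1

/-- `n ^ 2 + 1` is a cyclic number -/
def Cyc (n : ℕ) : Prop := Nat.Coprime (n ^ 2 + 1) (Nat.totient (n ^ 2 + 1))

noncomputable instance (z : ℕ) : DecidablePred (Rough z) := fun _ => Classical.dec _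
instance : DecidablePred Cyc := fun n =>
  inferInstanceAs (Decidable (Nat.Coprime (n ^ 2 + 1) (Nat.totient (n ^ 2 + 1))))

/-- the rough numbers whose `n ^ 2 + 1` is not cyclic -/
noncomputable def bad (X z : ℕ) : Finset ℕ := (Icc 1 X).filter (fun n => Rough z n ∧ ¬ Cyc n)

def SA (X q : ℕ) : Finset ℕ := (Icc 1 X).filter (fun n => q ^ 2 ∣ n ^ 2 + 1)
def S1 (X q p : ℕ) : Finset ℕ := (Icc 1 X).filter (fun n => p ∣ n ^ 2 + 1 ∧ q ∣ n ^ 2 + 1)
def S2 (X p : ℕ) : Finset ℕ := (Icc 1 X).filter (fun n => p ∣ n ^ 2 + 1)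
def S3 (X q m : ℕ) : Finset ℕ := (Icc 1 X).filter (fun n : ℕ => m ∣ n ^ 2 + 1 ∧
      ((q * m : ℕ) : ℤ) ∣ ((n ^ 2 + 1 : ℕ) : ℤ) - m)

def PA (X z : ℕ) : Finset ℕ := (Ioc z X).filter Nat.Prime
def P1 (Y q : ℕ) : Finset ℕ := (Icc 1 Y).filter (fun p => p.Prime ∧ p ≠ 2 ∧ p ≠ q ∧ q ∣ p - 1)
def M3 (Y q : ℕ) : Finset ℕ := (Icc 1 Y).filter (fun m => Odd m ∧ q ∣ m)

theorem bad_subset {X z Y1 Y2 Y3 : ℕ} (hz : 2 ≤ z) (hX : 1 ≤ X)
    (h3 : X ^ 2 + 1 < (Y2 + 1) * (Y3 + 1)) :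
    bad X z ⊆ (PA X z).biUnion (SA X) ∪ (PA Y1 z).biUnion (fun q => (P1 Y1 q).biUnion (S1 X q)) ∪
      (PA Y2 Y1).biUnion (S2 X) ∪ (PA Y3 z).biUnion (fun q => (M3 Y3 q).biUnion (S3 X q)) := by
  intro n hn
  rw [bad, mem_filter, mem_Icc] at hn
  obtain ⟨⟨hn1, hnX⟩, hr, hc⟩ := hn
  obtain ⟨q, hq, hqN, hcase⟩ := not_cyclic (by positivity) hc
  have hqz : z < q := by
    by_contra h
    exact hr q hq (by omega) hqN
  have hNX : n ^ 2 + 1 ≤ X ^ 2 + 1 := by
    have := Nat.pow_le_pow_left hnX 2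
    omega
  simp only [mem_union]
  rcases hcase with h | ⟨p, hp, hpN, hqp⟩
  · left; left; left
    rw [mem_biUnion]
    refine ⟨q, ?_, ?_⟩
    · rw [PA, mem_filter, mem_Ioc]
      refine ⟨⟨hqz, ?_⟩, hq⟩
      have h4 : q ^ 2 ≤ n ^ 2 + 1 := Nat.le_of_dvd (by positivity) h
      by_contra hcon
      have h5 : X + 1 ≤ q := by omega
      have h6 := Nat.pow_le_pow_left h5 2
      nlinarith
    · rw [SA, mem_filter, mem_Icc]
      exact ⟨⟨hn1, hnX⟩, h⟩
  · have hpz : z < p := by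
      by_contra h
      exact hr p hp (by omega) hpN
    have hqlep : q ≤ p - 1 := Nat.le_of_dvd (by have := hp.two_le; omega) hqp
    have hqp' : q < p := by have := hp.two_le; omega
    have hp2 : p ≠ 2 := by omega
    rcases le_or_gt p Y1 with hp1 | hp1
    · left; left; right
      rw [mem_biUnion]
      refine ⟨q, ?_, ?_⟩
      · rw [PA, mem_filter, mem_Ioc]
        exact ⟨⟨hqz, by omega⟩, hq⟩
      · rw [mem_biUnion]
        refine ⟨p, ?_, ?_⟩
        · rw [P1, mem_filter, mem_Icc]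
          exact ⟨⟨hp.pos, hp1⟩, hp, hp2, by omega, hqp⟩
        · rw [S1, mem_filter, mem_Icc]
          exact ⟨⟨hn1, hnX⟩, hpN, hqN⟩
    rcases le_or_gt p Y2 with hp3 | hp3
    · left; right
      rw [mem_biUnion]
      refine ⟨p, ?_, ?_⟩
      · rw [PA, mem_filter, mem_Ioc]
        exact ⟨⟨hp1, hp3⟩, hp⟩
      · rw [S2, mem_filter, mem_Icc]
        exact ⟨⟨hn1, hnX⟩, hpN⟩
    · right
      obtain ⟨m, hm⟩ := hpN
      have hm0 : 0 < m := by
        rcases Nat.eq_zero_or_pos m with h | h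
        · rw [h] at hm; simp at hm
        · exact h
      have hmY : m ≤ Y3 := by
        by_contra hcon
        have h5 : Y3 + 1 ≤ m := by omega
        have h6 : (Y2 + 1) * (Y3 + 1) ≤ p * m := Nat.mul_le_mul (by omega) h5
        omega
      have hodd : Odd m := by
        have h2 : ¬ 2 ∣ n ^ 2 + 1 := hr 2 Nat.prime_two hz
        rw [hm] at h2
        rw [← Nat.not_even_iff_odd, even_iff_two_dvd]
        intro h
        exact h2 (h.mul_left p)
      have hqm : q ∣ m := by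
        rw [hm] at hqN
        rcases (Nat.Prime.dvd_mul hq).1 hqN with h | h
        · exact absurd ((Nat.prime_dvd_prime_iff_eq hq hp).1 h) (by omega)
        · exact h
      rw [mem_biUnion]
      refine ⟨q, ?_, ?_⟩
      · rw [PA, mem_filter, mem_Ioc]
        exact ⟨⟨hqz, (Nat.le_of_dvd hm0 hqm).trans hmY⟩, hq⟩
      · rw [mem_biUnion]
        refine ⟨m, ?_, ?_⟩
        · rw [M3, mem_filter, mem_Icc]
          exact ⟨⟨hm0, hmY⟩, hodd, hqm⟩
        · rw [S3, mem_filter, mem_Icc]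
          refine ⟨⟨hn1, hnX⟩, ⟨p, by rw [hm]; ring⟩, ?_⟩
          rw [hm]
          obtain ⟨t, ht⟩ := hqp
          have hpt : p = q * t + 1 := by have := hp.two_le; omega
          refine ⟨t, ?_⟩
          rw [hpt]; push_cast; ring

theorem card_bad_le {X z Y1 Y2 Y3 : ℕ} (hz : 2 ≤ z) (hX : 1 ≤ X) (hzY : z ≤ Y1)
    (h3 : X ^ 2 + 1 < (Y2 + 1) * (Y3 + 1)) :
    ((bad X z).card : ℝ) ≤
      (∑ q ∈ PA X z, 2 * ((X : ℝ) / (q : ℝ) ^ 2 + 1)) +
      (∑ q ∈ PA Y1 z, ∑ p ∈ P1 Y1 q, 4 * ((X : ℝ) / (p * q : ℝ) + 1)) +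
      (∑ p ∈ PA Y2 Y1, 2 * ((X : ℝ) / p + 1)) +
      (∑ q ∈ PA Y3 z, ∑ m ∈ M3 Y3 q, (rho m : ℝ) * ((X : ℝ) / (q * m : ℝ) + 1)) := by
  have hsub := card_le_card (bad_subset (Y1 := Y1) hz hX h3)
  have h4 := hsub.trans ((card_union_le _ _).trans (add_le_add ((card_union_le _ _).trans
    (add_le_add (card_union_le _ _) le_rfl)) le_rfl))
  have hA : (((PA X z).biUnion (SA X)).card : ℝ) ≤
      ∑ q ∈ PA X z, 2 * ((X : ℝ) / (q : ℝ) ^ 2 + 1) := by
    refine (Nat.cast_le.2 card_biUnion_le).trans ?_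
    push_cast
    apply sum_le_sum
    intro q hq
    rw [PA, mem_filter, mem_Ioc] at hq
    apply two_classes_one _ X q 2 hq.2 (by omega) (by norm_num)
    · intro n hn; rw [SA, mem_filter, mem_Icc] at hn; omega
    · intro n hn; rw [SA, mem_filter] at hn; exact hn.2
  have hB1 : (((PA Y1 z).biUnion (fun q => (P1 Y1 q).biUnion (S1 X q))).card : ℝ) ≤
      ∑ q ∈ PA Y1 z, ∑ p ∈ P1 Y1 q, 4 * ((X : ℝ) / (p * q : ℝ) + 1) := by
    refine (Nat.cast_le.2 card_biUnion_le).trans ?_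
    push_cast
    apply sum_le_sum
    intro q hq
    refine (Nat.cast_le.2 card_biUnion_le).trans ?_
    push_cast
    apply sum_le_sum
    intro p hp
    rw [PA, mem_filter, mem_Ioc] at hq
    rw [P1, mem_filter] at hp
    apply four_classes _ X p q hp.2.1 hp.2.2.1 hq.2 (by omega) hp.2.2.2.1
    · intro n hn; rw [S1, mem_filter, mem_Icc] at hn; omega
    · intro n hn; rw [S1, mem_filter] at hn; exact hn.2.1
    · intro n hn; rw [S1, mem_filter] at hn; exact hn.2.2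
  have hB2 : (((PA Y2 Y1).biUnion (S2 X)).card : ℝ) ≤
      ∑ p ∈ PA Y2 Y1, 2 * ((X : ℝ) / p + 1) := by
    refine (Nat.cast_le.2 card_biUnion_le).trans ?_
    push_cast
    apply sum_le_sum
    intro p hp
    rw [PA, mem_filter, mem_Ioc] at hp
    have := two_classes_one (S2 X p) X p 1 hp.2 (by omega) one_pos
      (by intro n hn; rw [S2, mem_filter, mem_Icc] at hn; omega)
      (by intro n hn; rw [S2, mem_filter] at hn; simpa using hn.2)
    simpa using this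
  have hB3 : (((PA Y3 z).biUnion (fun q => (M3 Y3 q).biUnion (S3 X q))).card : ℝ) ≤
      ∑ q ∈ PA Y3 z, ∑ m ∈ M3 Y3 q, (rho m : ℝ) * ((X : ℝ) / (q * m : ℝ) + 1) := by
    refine (Nat.cast_le.2 card_biUnion_le).trans ?_
    push_cast
    apply sum_le_sum
    intro q hq
    refine (Nat.cast_le.2 card_biUnion_le).trans ?_
    push_cast
    apply sum_le_sum
    intro m hm
    rw [PA, mem_filter, mem_Ioc] at hq
    rw [M3, mem_filter] at hm
    exact card_cofactor_le X m q hm.2.1 hq.2 (by omega) hm.2.2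
  have h5 : ((bad X z).card : ℝ) ≤ (((PA X z).biUnion (SA X)).card : ℝ) +
      (((PA Y1 z).biUnion (fun q => (P1 Y1 q).biUnion (S1 X q))).card : ℝ) +
      (((PA Y2 Y1).biUnion (S2 X)).card : ℝ) +
      (((PA Y3 z).biUnion (fun q => (M3 Y3 q).biUnion (S3 X q))).card : ℝ) := by
    exact_mod_cast h4
  linarith

/-- region A -/
theorem sumA_le {X z : ℕ} (hz : 1 ≤ z) (hX : 2 ≤ X) :
    (∑ q ∈ PA X z, 2 * ((X : ℝ) / (q : ℝ) ^ 2 + 1)) ≤
      2 * X / z + 8 * X / Real.log X := by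
  have h1 : (∑ q ∈ PA X z, 2 * ((X : ℝ) / (q : ℝ) ^ 2 + 1)) =
      2 * X * (∑ q ∈ (Ioc z X).filter Nat.Prime, (1 : ℝ) / (q : ℝ) ^ 2) +
        2 * ((PA X z).card : ℝ) := by
    have hc : 2 * (((PA X z).card : ℕ) : ℝ) = ∑ q ∈ PA X z, (2 : ℝ) := by
      rw [sum_const, nsmul_eq_mul, mul_comm]
    rw [hc, mul_sum, PA, ← sum_add_distrib]
    apply sum_congr rfl
    intro q _
    ring
  rw [h1]
  have h2 := sum_inv_sq_le (z := z) (Y := X) hz
  have h3 : ((PA X z).card : ℝ) ≤ 4 * X / Real.log X := by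
    refine le_trans ?_ (card_primes_le hX)
    have : (PA X z).card ≤ ((Icc 1 X).filter Nat.Prime).card := by
      apply card_le_card
      apply filter_subset_filter
      intro p hp
      rw [mem_Ioc] at hp
      rw [mem_Icc]; omega
    exact_mod_cast this
  have hX0 : (0 : ℝ) ≤ X := by positivity
  have h4 : 2 * (X : ℝ) * (∑ q ∈ (Ioc z X).filter Nat.Prime, (1 : ℝ) / (q : ℝ) ^ 2) ≤
      2 * X * (1 / z) := mul_le_mul_of_nonneg_left h2 (by positivity)
  have e1 : 2 * (X : ℝ) * (1 / z) = 2 * X / z := by ring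
  have e2 : 2 * (4 * (X : ℝ) / Real.log X) = 8 * X / Real.log X := by ring
  linarith

/-- primes `p = 1 + k q` up to `Y` -/
theorem sumP1_le (Y q : ℕ) (hq : 0 < q) (c : ℝ) (hc : 0 ≤ c) :
    (∑ p ∈ P1 Y q, (c / (p * q : ℝ) + 1)) ≤ c * (1 + Real.log Y) / (q : ℝ) ^ 2 + Y / q := by
  have hmap : ∀ p ∈ P1 Y q, (p - 1) / q ∈ Icc 1 (Y / q) := by
    intro p hp
    rw [P1, mem_filter, mem_Icc] at hp
    obtain ⟨⟨h1, h2⟩, h3, h4, h5, h6⟩ := hp
    rw [mem_Icc]
    constructor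
    · have h7 : q ≤ p - 1 := Nat.le_of_dvd (by have := h3.two_le; omega) h6
      exact (Nat.one_le_div_iff hq).2 h7
    · exact Nat.div_le_div_right (by omega)
  have hinj : Set.InjOn (fun p => (p - 1) / q) (P1 Y q : Set ℕ) := by
    intro a ha b hb hab
    have ha' : a ∈ P1 Y q := ha
    have hb' : b ∈ P1 Y q := hb
    rw [P1, mem_filter, mem_Icc] at ha' hb'
    have h1 := Nat.div_mul_cancel ha'.2.2.2.2
    have h2 := Nat.div_mul_cancel hb'.2.2.2.2
    simp only at hab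
    rw [hab] at h1
    have := ha'.2.1.two_le
    have := hb'.2.1.two_le
    omega
  have hq0 : (0 : ℝ) < q := by exact_mod_cast hq
  have hterm : ∀ p ∈ P1 Y q, c / (p * q : ℝ) ≤ c / (q : ℝ) ^ 2 * (1 / (((p - 1) / q : ℕ) : ℝ)) := by
    intro p hp
    have hk := hmap p hp
    rw [mem_Icc] at hk
    rw [P1, mem_filter, mem_Icc] at hp
    have h1 := Nat.div_mul_cancel hp.2.2.2.2
    have hk0 : (0 : ℝ) < (((p - 1) / q : ℕ) : ℝ) := by exact_mod_cast hk.1
    have h2 : (((p - 1) / q : ℕ) : ℝ) * q ≤ p := by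
      have : (p - 1) / q * q ≤ p := by rw [h1]; omega
      exact_mod_cast this
    have e : c / (q : ℝ) ^ 2 * (1 / (((p - 1) / q : ℕ) : ℝ)) =
        c / (((((p - 1) / q : ℕ) : ℝ) * q) * q) := by
      field_simp
    rw [e]
    apply div_le_div_of_nonneg_left hc (by positivity)
    exact mul_le_mul_of_nonneg_right h2 hq0.le
  have hsum : (∑ p ∈ P1 Y q, (1 : ℝ) / (((p - 1) / q : ℕ) : ℝ)) ≤ 1 + Real.log Y := by
    rcases Nat.eq_zero_or_pos (Y / q) with h0 | h0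
    · have : P1 Y q = ∅ := by
        rw [eq_empty_iff_forall_notMem]
        intro p hp
        have := hmap p hp
        rw [mem_Icc] at this
        omega
      rw [this, sum_empty]
      have := Real.log_natCast_nonneg Y
      linarith
    calc (∑ p ∈ P1 Y q, (1 : ℝ) / (((p - 1) / q : ℕ) : ℝ))
        = ∑ k ∈ (P1 Y q).image (fun p => (p - 1) / q), (1 : ℝ) / (k : ℝ) := by
          rw [sum_image hinj]
      _ ≤ ∑ k ∈ Icc 1 (Y / q), (1 : ℝ) / (k : ℝ) := by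
          apply sum_le_sum_of_subset_of_nonneg
          · intro k hk
            rw [mem_image] at hk
            obtain ⟨p, hp, rfl⟩ := hk
            exact hmap p hp
          · intro k _ _; positivity
      _ ≤ 1 + Real.log ((Y / q : ℕ) : ℝ) := by
          have h4 := harmonic_le_one_add_log (Y / q)
          rw [harmonic_eq_sum_Icc] at h4
          push_cast at h4
          simpa using h4
      _ ≤ 1 + Real.log Y := by
          have : Real.log ((Y / q : ℕ) : ℝ) ≤ Real.log Y := by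
            apply Real.log_le_log (by exact_mod_cast h0)
            exact_mod_cast Nat.div_le_self Y q
          linarith
  have hcard : ((P1 Y q).card : ℝ) ≤ Y / q := by
    have h1 : (P1 Y q).card ≤ (Icc 1 (Y / q)).card := card_le_card_of_injOn _ hmap hinj
    rw [Nat.card_Icc, Nat.add_sub_cancel] at h1
    calc ((P1 Y q).card : ℝ) ≤ ((Y / q : ℕ) : ℝ) := by exact_mod_cast h1
      _ ≤ Y / q := Nat.cast_div_le
  rw [sum_add_distrib, sum_const, nsmul_eq_mul, mul_one]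
  have h5 : (∑ p ∈ P1 Y q, c / (p * q : ℝ)) ≤ c / (q : ℝ) ^ 2 * (1 + Real.log Y) := by
    calc (∑ p ∈ P1 Y q, c / (p * q : ℝ))
        ≤ ∑ p ∈ P1 Y q, c / (q : ℝ) ^ 2 * (1 / (((p - 1) / q : ℕ) : ℝ)) := sum_le_sum hterm
      _ = c / (q : ℝ) ^ 2 * ∑ p ∈ P1 Y q, (1 / (((p - 1) / q : ℕ) : ℝ)) := by rw [mul_sum]
      _ ≤ c / (q : ℝ) ^ 2 * (1 + Real.log Y) := by
          apply mul_le_mul_of_nonneg_left hsum (by positivity)
  have e : c / (q : ℝ) ^ 2 * (1 + Real.log Y) = c * (1 + Real.log Y) / (q : ℝ) ^ 2 := by ring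
  linarith

/-- region B1 -/
theorem sumB1_le {X z Y : ℕ} (hz : 1 ≤ z) (hY : 1 ≤ Y) :
    (∑ q ∈ PA Y z, ∑ p ∈ P1 Y q, 4 * ((X : ℝ) / (p * q : ℝ) + 1)) ≤
      4 * X * (1 + Real.log Y) / z + 4 * Y * (1 + Real.log Y) := by
  have hlogY : 0 ≤ Real.log Y := Real.log_natCast_nonneg Y
  have h1 : ∀ q ∈ PA Y z, (∑ p ∈ P1 Y q, 4 * ((X : ℝ) / (p * q : ℝ) + 1)) ≤
      4 * X * (1 + Real.log Y) * (1 / (q : ℝ) ^ 2) + 4 * Y * (1 / (q : ℝ)) := by
    intro q hq
    rw [PA, mem_filter] at hq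
    have := sumP1_le Y q hq.2.pos X (by positivity)
    rw [← mul_sum]
    calc 4 * (∑ p ∈ P1 Y q, ((X : ℝ) / (p * q : ℝ) + 1))
        ≤ 4 * (X * (1 + Real.log Y) / (q : ℝ) ^ 2 + Y / q) := by linarith
      _ = 4 * X * (1 + Real.log Y) * (1 / (q : ℝ) ^ 2) + 4 * Y * (1 / (q : ℝ)) := by ring
  have h2 := sum_inv_sq_le (z := z) (Y := Y) hz
  have h3 : (∑ q ∈ PA Y z, (1 : ℝ) / q) ≤ 1 + Real.log Y := by
    have h4 := harmonic_le_one_add_log Y
    rw [harmonic_eq_sum_Icc] at h4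
    push_cast at h4
    refine le_trans ?_ h4
    calc (∑ q ∈ PA Y z, (1 : ℝ) / q) ≤ ∑ q ∈ Icc 1 Y, (1 : ℝ) / q := by
          apply sum_le_sum_of_subset_of_nonneg
          · intro p hp
            rw [PA, mem_filter, mem_Ioc] at hp
            rw [mem_Icc]; omega
          · intro p _ _; positivity
      _ = ∑ i ∈ Icc 1 Y, ((i : ℝ))⁻¹ := by simp
  calc (∑ q ∈ PA Y z, ∑ p ∈ P1 Y q, 4 * ((X : ℝ) / (p * q : ℝ) + 1))
      ≤ ∑ q ∈ PA Y z, (4 * X * (1 + Real.log Y) * (1 / (q : ℝ) ^ 2) + 4 * Y * (1 / (q : ℝ))) :=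
        sum_le_sum h1
    _ = 4 * X * (1 + Real.log Y) * (∑ q ∈ PA Y z, (1 / (q : ℝ) ^ 2)) +
        4 * Y * (∑ q ∈ PA Y z, (1 : ℝ) / q) := by
        rw [sum_add_distrib, mul_sum, mul_sum]
    _ ≤ 4 * X * (1 + Real.log Y) * (1 / z) + 4 * Y * (1 + Real.log Y) := by
        apply add_le_add
        · apply mul_le_mul_of_nonneg_left h2 (by positivity)
        · apply mul_le_mul_of_nonneg_left h3 (by positivity)
    _ = _ := by ring

/-- region B2 -/
theorem sumB2_le {X Y1 Y2 : ℕ} (hY1 : 2 ≤ Y1) (hY : Y1 ≤ Y2) :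
    (∑ p ∈ PA Y2 Y1, 2 * ((X : ℝ) / p + 1)) ≤
      8 * X * (Real.log (Y2 / Y1) + Real.log 2) / Real.log Y1 + 8 * Y2 / Real.log Y2 := by
  have h1 : (∑ p ∈ PA Y2 Y1, 2 * ((X : ℝ) / p + 1)) =
      2 * X * (∑ p ∈ (Ioc Y1 Y2).filter Nat.Prime, (1 : ℝ) / p) + 2 * ((PA Y2 Y1).card : ℝ) := by
    have hc : 2 * (((PA Y2 Y1).card : ℕ) : ℝ) = ∑ q ∈ PA Y2 Y1, (2 : ℝ) := by
      rw [sum_const, nsmul_eq_mul, mul_comm]
    rw [hc, mul_sum, PA, ← sum_add_distrib]
    apply sum_congr rfl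
    intro q _
    ring
  rw [h1]
  have h2 := sum_inv_le hY1 hY
  have h3 : ((PA Y2 Y1).card : ℝ) ≤ 4 * Y2 / Real.log Y2 := by
    refine le_trans ?_ (card_primes_le (by omega))
    have : (PA Y2 Y1).card ≤ ((Icc 1 Y2).filter Nat.Prime).card := by
      apply card_le_card
      apply filter_subset_filter
      intro p hp
      rw [mem_Ioc] at hp
      rw [mem_Icc]; omega
    exact_mod_cast this
  have h4 : 2 * (X : ℝ) * (∑ p ∈ (Ioc Y1 Y2).filter Nat.Prime, (1 : ℝ) / p) ≤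
      2 * X * (4 * (Real.log (Y2 / Y1) + Real.log 2) / Real.log Y1) :=
    mul_le_mul_of_nonneg_left h2 (by positivity)
  have e1 : 2 * (X : ℝ) * (4 * (Real.log (Y2 / Y1) + Real.log 2) / Real.log Y1) =
      8 * X * (Real.log (Y2 / Y1) + Real.log 2) / Real.log Y1 := by ring
  have e2 : 2 * (4 * (Y2 : ℝ) / Real.log Y2) = 8 * Y2 / Real.log Y2 := by ring
  linarith

/-- region B3 -/
theorem sumB3_le {X z Y : ℕ} (hz : 2 ≤ z) (hY : 3 ≤ Y) :
    (∑ q ∈ PA Y z, ∑ m ∈ M3 Y q, (rho m : ℝ) * ((X : ℝ) / (q * m : ℝ) + 1)) ≤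
      2 * X * (18 + 9 * Real.log (Y + 1)) / z + 18 * Y * (5 * √(Real.log Y) + 5) := by
  have hlogY : 0 ≤ Real.log ((Y : ℝ) + 1) := Real.log_nonneg (by
    have : (0 : ℝ) ≤ Y := by positivity
    linarith)
  have h1 : ∀ q ∈ PA Y z, (∑ m ∈ M3 Y q, (rho m : ℝ) * ((X : ℝ) / (q * m : ℝ) + 1)) ≤
      2 * X * (18 + 9 * Real.log (Y + 1)) * (1 / (q : ℝ) ^ 2) + 18 * Y * (1 / (q : ℝ)) := by
    intro q hq
    rw [PA, mem_filter, mem_Ioc] at hq
    have hq0 : (0 : ℝ) < q := by exact_mod_cast hq.2.pos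
    have hq2 : q ≠ 2 := by omega
    have hqle : Y / q ≤ Y := Nat.div_le_self Y q
    have hsub : M3 Y q ⊆ (Icc 1 (Y / q)).image (fun m => q * m) := by
      intro m hm
      rw [M3, mem_filter, mem_Icc] at hm
      obtain ⟨⟨h1, h2⟩, -, ⟨t, ht⟩⟩ := hm
      rw [mem_image]
      refine ⟨t, ?_, ht.symm⟩
      rw [mem_Icc]
      constructor
      · rcases Nat.eq_zero_or_pos t with h | h
        · rw [h] at ht; omega
        · exact h
      · rw [Nat.le_div_iff_mul_le hq.2.pos, mul_comm, ← ht]; exact h2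
    have hinj : Set.InjOn (fun m => q * m) (Icc 1 (Y / q) : Set ℕ) := by
      intro a _ b _ hab
      exact Nat.eq_of_mul_eq_mul_left hq.2.pos hab
    calc (∑ m ∈ M3 Y q, (rho m : ℝ) * ((X : ℝ) / (q * m : ℝ) + 1))
        ≤ ∑ m ∈ (Icc 1 (Y / q)).image (fun m => q * m),
            (rho m : ℝ) * ((X : ℝ) / (q * m : ℝ) + 1) := by
          apply sum_le_sum_of_subset_of_nonneg hsub
          intro m _ _; positivity
      _ = ∑ m ∈ Icc 1 (Y / q), (rho (q * m) : ℝ) * ((X : ℝ) / (q * ((q * m : ℕ) : ℝ)) + 1) := by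
          rw [sum_image (by intro a ha b hb hab; exact hinj (by simpa using ha) (by simpa using hb) hab)]
      _ ≤ ∑ m ∈ Icc 1 (Y / q), (2 * X / (q : ℝ) ^ 2 * ((rho m : ℝ) / m) + 2 * (rho m : ℝ)) := by
          apply sum_le_sum
          intro m hm
          rw [mem_Icc] at hm
          have hm0 : (0 : ℝ) < m := by exact_mod_cast hm.1
          have h2 : (rho (q * m) : ℝ) ≤ 2 * rho m := by exact_mod_cast rho_mul_le hq.2 hq2
          calc (rho (q * m) : ℝ) * ((X : ℝ) / (q * ((q * m : ℕ) : ℝ)) + 1)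
              ≤ (2 * rho m) * ((X : ℝ) / (q * ((q * m : ℕ) : ℝ)) + 1) := by
                apply mul_le_mul_of_nonneg_right h2 (by positivity)
            _ = _ := by push_cast; field_simp
      _ = 2 * X / (q : ℝ) ^ 2 * (∑ m ∈ Icc 1 (Y / q), (rho m : ℝ) / m) +
          2 * (∑ m ∈ Icc 1 (Y / q), (rho m : ℝ)) := by
          rw [sum_add_distrib, mul_sum, mul_sum]
      _ ≤ 2 * X / (q : ℝ) ^ 2 * (18 + 9 * Real.log (Y + 1)) + 2 * (9 * (Y / q)) := by
          apply add_le_add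
          · apply mul_le_mul_of_nonneg_left _ (by positivity)
            refine le_trans ?_ (sum_rho_div_le Y)
            apply sum_le_sum_of_subset_of_nonneg
            · exact Icc_subset_Icc_right hqle
            · intro m _ _; positivity
          · apply mul_le_mul_of_nonneg_left _ (by norm_num)
            have h5 : (∑ m ∈ Icc 1 (Y / q), (rho m : ℝ)) ≤ 9 * ((Y / q : ℕ) : ℝ) := by
              exact_mod_cast sum_rho_le (Y / q)
            refine h5.trans ?_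
            apply mul_le_mul_of_nonneg_left Nat.cast_div_le (by norm_num)
      _ = _ := by ring
  have h2 := sum_inv_sq_le (z := z) (Y := Y) (by omega)
  have h3 : (∑ q ∈ PA Y z, (1 : ℝ) / q) ≤ 5 * √(Real.log Y) + 5 := by
    refine le_trans ?_ (sum_inv_le_sqrt hY)
    apply sum_le_sum_of_subset_of_nonneg
    · apply filter_subset_filter
      intro p hp
      rw [mem_Ioc] at hp
      rw [mem_Icc]; omega
    · intro p _ _; positivity
  calc (∑ q ∈ PA Y z, ∑ m ∈ M3 Y q, (rho m : ℝ) * ((X : ℝ) / (q * m : ℝ) + 1))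
      ≤ ∑ q ∈ PA Y z, (2 * X * (18 + 9 * Real.log (Y + 1)) * (1 / (q : ℝ) ^ 2) +
          18 * Y * (1 / (q : ℝ))) := sum_le_sum h1
    _ = 2 * X * (18 + 9 * Real.log (Y + 1)) * (∑ q ∈ PA Y z, (1 / (q : ℝ) ^ 2)) +
        18 * Y * (∑ q ∈ PA Y z, (1 : ℝ) / q) := by
        rw [sum_add_distrib, mul_sum, mul_sum]
    _ ≤ 2 * X * (18 + 9 * Real.log (Y + 1)) * (1 / z) + 18 * Y * (5 * √(Real.log Y) + 5) := by
        apply add_le_add
        · apply mul_le_mul_of_nonneg_left h2 (by positivity)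
        · apply mul_le_mul_of_nonneg_left h3 (by positivity)
    _ = _ := by ring

end NSC
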