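import Pool.Agent.helper37.NS.Bad

namespace NSC

open Finset Real Filter

/-- the sieving level -/
noncomputable def lev (X : ℕ) : ℕ := ⌈(log (X : ℝ)) ^ (21 / 20 : ℝ)⌉₊

theorem asym_cond : ∀ᶠ t : ℝ in atTop, 16 ≤ t ∧ 2 * t ^ 2 ≤ exp (t / 2) ∧ log t ≤ t ^ (1 / 2 : ℝ) ∧
    1000 * t ^ (-(1 / 20) : ℝ) ≤ t ^ (-(1 / 21) : ℝ) ∧ 4 * t ^ 4 ≤ exp t := by
  have h1 : ∀ᶠ t : ℝ in atTop, 16 ≤ t := eventually_ge_atTop 16
  have h2 : ∀ᶠ t : ℝ in atTop, 2 * t ^ 2 ≤ exp (t / 2) := by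
    have := (tendsto_exp_div_pow_atTop 2)
    have h3 : Tendsto (fun t : ℝ => exp (t / 2) / (t / 2) ^ 2) atTop atTop :=
      this.comp (tendsto_id.atTop_div_const (by norm_num : (0 : ℝ) < 2))
    filter_upwards [h3.eventually_ge_atTop 8, h1] with t ht h16
    have hpos : (0 : ℝ) < (t / 2) ^ 2 := by positivity
    rw [le_div_iff₀ hpos] at ht
    linarith
  have h3 : ∀ᶠ t : ℝ in atTop, log t ≤ t ^ (1 / 2 : ℝ) := by
    have := (isLittleO_log_rpow_atTop (by norm_num : (0 : ℝ) < 1 / 2)).bound one_pos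
    filter_upwards [this, h1] with t ht h16
    rw [one_mul, norm_eq_abs, norm_eq_abs, abs_of_nonneg (log_nonneg (by linarith)),
      abs_of_nonneg (by positivity)] at ht
    exact ht
  have h4 : ∀ᶠ t : ℝ in atTop, 1000 * t ^ (-(1 / 20) : ℝ) ≤ t ^ (-(1 / 21) : ℝ) := by
    have := tendsto_rpow_atTop (by norm_num : (0 : ℝ) < 1 / 420)
    filter_upwards [this.eventually_ge_atTop 1000, h1] with t ht h16
    have hpos : (0 : ℝ) < t := by linarith
    have e : t ^ (-(1 / 21) : ℝ) = t ^ (1 / 420 : ℝ) * t ^ (-(1 / 20) : ℝ) := by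
      rw [← rpow_add hpos]; norm_num
    rw [e]
    exact mul_le_mul_of_nonneg_right ht (by positivity)
  have h5 : ∀ᶠ t : ℝ in atTop, 4 * t ^ 4 ≤ exp t := by
    have := (tendsto_exp_div_pow_atTop 4)
    filter_upwards [this.eventually_ge_atTop 4, h1] with t ht h16
    have hpos : (0 : ℝ) < t ^ 4 := by positivity
    rw [le_div_iff₀ hpos] at ht
    exact ht
  filter_upwards [h1, h2, h3, h4, h5] with t a b c d e
  exact ⟨a, b, c, d, e⟩

theorem tendsto_log_nat : Tendsto (fun X : ℕ => log (X : ℝ)) atTop atTop :=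
  tendsto_log_atTop.comp tendsto_natCast_atTop_atTop

theorem card_bad_asym : ∀ᶠ X : ℕ in atTop,
    ((bad X (lev X)).card : ℝ) ≤ X * (log (X : ℝ)) ^ (-(1 / 21) : ℝ) := by
  filter_upwards [tendsto_log_nat.eventually asym_cond, eventually_ge_atTop 3] with X hX hX3
  set t := log (X : ℝ) with ht
  obtain ⟨h16, hexp, hlog, hfin, hexp4⟩ := hX
  have ht0 : 0 < t := by linarith
  have hX0 : (0 : ℝ) < X := by positivity
  have hXexp : exp t = X := by rw [ht]; exact exp_log hX0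
  set z := lev X with hz
  have hz1 : t ^ (21 / 20 : ℝ) ≤ z := Nat.le_ceil _
  have hz2 : (z : ℝ) < t ^ (21 / 20 : ℝ) + 1 := Nat.ceil_lt_add_one (by positivity)
  have ht1 : (1 : ℝ) ≤ t := by linarith
  have htz : t ≤ z := by
    refine le_trans ?_ hz1
    calc t = t ^ (1 : ℝ) := (rpow_one t).symm
      _ ≤ t ^ (21 / 20 : ℝ) := rpow_le_rpow_of_exponent_le ht1 (by norm_num)
  have hzt2 : (z : ℝ) ≤ 2 * t ^ 2 := by
    have h1 : t ^ (21 / 20 : ℝ) ≤ t ^ (2 : ℝ) := rpow_le_rpow_of_exponent_le ht1 (by norm_num)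
    have h2 : t ^ (2 : ℝ) = t ^ 2 := rpow_two t
    have h3 : (1 : ℝ) ≤ t ^ 2 := one_le_pow₀ ht1
    rw [h2] at h1
    linarith
  have hz2' : 2 ≤ z := by
    have : (16 : ℝ) ≤ z := by linarith
    have : 16 ≤ z := by exact_mod_cast this
    omega
  have hz0 : (0 : ℝ) < z := by positivity
  have ht21 : (1 : ℝ) ≤ t ^ 2 := one_le_pow₀ ht1
  -- Y1
  set Y1 := ⌊(X : ℝ) / t ^ 2⌋₊ with hY1
  have hY1a : (Y1 : ℝ) ≤ X / t ^ 2 := Nat.floor_le (by positivity)
  have hY1b : (X : ℝ) / t ^ 2 < Y1 + 1 := Nat.lt_floor_add_one _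
  have hXt : 4 * t ^ 2 ≤ (X : ℝ) / t ^ 2 := by
    rw [le_div_iff₀ (by positivity), ← hXexp]
    calc 4 * t ^ 2 * t ^ 2 = 4 * t ^ 4 := by ring
      _ ≤ exp t := hexp4
  have hY1c : (X : ℝ) / (2 * t ^ 2) ≤ Y1 := by
    have e : (X : ℝ) / (2 * t ^ 2) = X / t ^ 2 / 2 := by field_simp
    rw [e]
    linarith
  have hzY1 : z ≤ Y1 := by
    have : (z : ℝ) ≤ Y1 := by linarith
    exact_mod_cast this
  have hY10 : (0 : ℝ) < Y1 := by
    have : 0 < Y1 := by omega
    exact_mod_cast this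
  have hY1X : (Y1 : ℝ) ≤ X := by
    exact hY1a.trans (div_le_self hX0.le ht21)
  have hlogY1 : log (Y1 : ℝ) ≤ t := log_le_log hY10 hY1X
  have hlogY1' : t / 2 ≤ log (Y1 : ℝ) := by
    have h1 : log ((X : ℝ) / (2 * t ^ 2)) ≤ log Y1 := log_le_log (by positivity) hY1c
    rw [log_div (by positivity) (by positivity)] at h1
    have h2 : log (2 * t ^ 2) ≤ t / 2 := by
      calc log (2 * t ^ 2) ≤ log (exp (t / 2)) := log_le_log (by positivity) hexp
        _ = t / 2 := log_exp _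
    linarith
  -- Y2
  have ht34 : (1 : ℝ) ≤ t ^ (3 / 4 : ℝ) := one_le_rpow ht1 (by norm_num)
  set Y2 := ⌊(X : ℝ) * t ^ (3 / 4 : ℝ)⌋₊ with hY2
  have hY2a : (Y2 : ℝ) ≤ X * t ^ (3 / 4 : ℝ) := Nat.floor_le (by positivity)
  have hY2b : (X : ℝ) * t ^ (3 / 4 : ℝ) < Y2 + 1 := Nat.lt_floor_add_one _
  have hY2c : X ≤ Y2 := by
    apply Nat.le_floor
    exact le_mul_of_one_le_right hX0.le ht34
  have hY2c' : (X : ℝ) ≤ Y2 := by exact_mod_cast hY2c
  have hY12 : Y1 ≤ Y2 := by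
    have : (Y1 : ℝ) ≤ Y2 := hY1X.trans hY2c'
    exact_mod_cast this
  -- Y3
  set Y3 := ⌊2 * (X : ℝ) / t ^ (3 / 4 : ℝ)⌋₊ with hY3
  have hY3a : (Y3 : ℝ) ≤ 2 * X / t ^ (3 / 4 : ℝ) := Nat.floor_le (by positivity)
  have hY3b : 2 * (X : ℝ) / t ^ (3 / 4 : ℝ) < Y3 + 1 := Nat.lt_floor_add_one _
  have ht34' : t ^ (3 / 4 : ℝ) ≤ t := by
    calc t ^ (3 / 4 : ℝ) ≤ t ^ (1 : ℝ) := rpow_le_rpow_of_exponent_le ht1 (by norm_num)
      _ = t := rpow_one t
  have h834 : 8 ≤ t ^ (3 / 4 : ℝ) := by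
    calc (8 : ℝ) = (16 : ℝ) ^ (3 / 4 : ℝ) := by
          rw [show (16 : ℝ) = 2 ^ (4 : ℝ) by norm_num, ← rpow_mul (by norm_num)]; norm_num
      _ ≤ t ^ (3 / 4 : ℝ) := rpow_le_rpow (by norm_num) h16 (by norm_num)
  have hY3X : (Y3 : ℝ) ≤ X := by
    refine hY3a.trans ?_
    rw [div_le_iff₀ (by positivity), mul_comm]
    exact mul_le_mul_of_nonneg_left (by linarith) hX0.le
  have hprod : X ^ 2 + 1 < (Y2 + 1) * (Y3 + 1) := by
    have h1 : (X : ℝ) * t ^ (3 / 4 : ℝ) * (2 * (X : ℝ) / t ^ (3 / 4 : ℝ)) <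
        ((Y2 : ℝ) + 1) * ((Y3 : ℝ) + 1) := by
      apply mul_lt_mul'' hY2b hY3b (by positivity) (by positivity)
    have e : (X : ℝ) * t ^ (3 / 4 : ℝ) * (2 * (X : ℝ) / t ^ (3 / 4 : ℝ)) = 2 * (X : ℝ) ^ 2 := by
      field_simp
    rw [e] at h1
    have h2 : ((X : ℝ) ^ 2 + 1) < ((Y2 : ℝ) + 1) * ((Y3 : ℝ) + 1) := by
      have : (1 : ℝ) ≤ (X : ℝ) ^ 2 :=
        one_le_pow₀ (by exact_mod_cast (by omega : 1 ≤ X))
      linarith
    exact_mod_cast h2
  have hY33 : 3 ≤ Y3 := by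
    have h1 : (3 : ℝ) ≤ 2 * (X : ℝ) / t ^ (3 / 4 : ℝ) := by
      rw [le_div_iff₀ (by positivity)]
      have h2 : 4 * t ^ 2 ≤ (X : ℝ) := hXt.trans (div_le_self hX0.le ht21)
      have h3 : t * 1 ≤ t * t := mul_le_mul_of_nonneg_left ht1 ht0.le
      have h4 : t ^ 2 = t * t := sq t
      linarith
    exact Nat.le_floor (by exact_mod_cast h1)
  have hbad := card_bad_le hz2' (by omega : 1 ≤ X) hzY1 hprod
  have hA := sumA_le (X := X) (z := z) (by omega) (by omega)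
  have hB1 := sumB1_le (X := X) (z := z) (Y := Y1) (by omega) (by omega)
  have hB2 := sumB2_le (X := X) (Y1 := Y1) (Y2 := Y2) (by omega) hY12
  have hB3 := sumB3_le (X := X) (z := z) (Y := Y3) hz2' hY33
  -- powers of t
  set u := t ^ (-(1 / 20) : ℝ) with hu
  have hu0 : 0 < u := by positivity
  have hpow : ∀ a : ℝ, a ≤ -(1 / 20) → t ^ a ≤ u := fun a ha =>
    rpow_le_rpow_of_exponent_le ht1 ha
  have hinvz : 1 / (z : ℝ) ≤ u / t := by
    have h1 : 1 / (z : ℝ) ≤ 1 / t ^ (21 / 20 : ℝ) := one_div_le_one_div_of_le (by positivity) hz1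
    have e : u / t = 1 / t ^ (21 / 20 : ℝ) := by
      rw [div_eq_div_iff ht0.ne' (by positivity), hu, ← rpow_add ht0, one_mul]
      norm_num
    rw [e]; exact h1
  have hinvt : 1 / t ≤ u := by
    have := hpow (-1) (by norm_num)
    rwa [rpow_neg_one, inv_eq_one_div] at this
  have ht14 : t ^ (-(1 / 4) : ℝ) ≤ u := hpow _ (by norm_num)
  have ht12 : t ^ (-(1 / 2) : ℝ) ≤ u := hpow _ (by norm_num)
  -- A
  have hA' : 2 * (X : ℝ) / z + 8 * X / t ≤ 10 * X * u := by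
    have h1 : 2 * (X : ℝ) / z = 2 * X * (1 / z) := by ring
    have h2 : 8 * (X : ℝ) / t = 8 * X * (1 / t) := by ring
    have h3 : u / t ≤ u := div_le_self hu0.le ht1
    rw [h1, h2]
    have h4 : 2 * (X : ℝ) * (1 / z) ≤ 2 * X * u :=
      mul_le_mul_of_nonneg_left (hinvz.trans h3) (by positivity)
    have h5 : 8 * (X : ℝ) * (1 / t) ≤ 8 * X * u :=
      mul_le_mul_of_nonneg_left hinvt (by positivity)
    linarith
  -- B1
  have hB1' : 4 * (X : ℝ) * (1 + log Y1) / z + 4 * Y1 * (1 + log Y1) ≤ 16 * X * u := by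
    have h0 : 0 ≤ log (Y1 : ℝ) := log_natCast_nonneg _
    have h1 : 1 + log (Y1 : ℝ) ≤ 2 * t := by linarith
    have h2 : 4 * (X : ℝ) * (1 + log Y1) / z ≤ 8 * X * u := by
      calc 4 * (X : ℝ) * (1 + log Y1) / z = 4 * X * (1 + log Y1) * (1 / z) := by ring
        _ ≤ 4 * X * (2 * t) * (u / t) := by
            apply mul_le_mul (mul_le_mul_of_nonneg_left h1 (by positivity)) hinvz
              (by positivity) (by positivity)
        _ = 8 * X * u := by field_simp; ring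
    have h3 : 4 * (Y1 : ℝ) * (1 + log Y1) ≤ 8 * X * u := by
      calc 4 * (Y1 : ℝ) * (1 + log Y1) ≤ 4 * (X / t ^ 2) * (2 * t) := by
            apply mul_le_mul (mul_le_mul_of_nonneg_left hY1a (by norm_num)) h1
              (by positivity) (by positivity)
        _ = 8 * X * (1 / t) := by field_simp; ring
        _ ≤ 8 * X * u := mul_le_mul_of_nonneg_left hinvt (by positivity)
    linarith
  -- B2
  have hB2' : 8 * (X : ℝ) * (log (Y2 / Y1) + log 2) / log Y1 + 8 * Y2 / log Y2 ≤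
      100 * X * u := by
    have hl2 : log 2 < 1 := by have := log_two_lt_d9; linarith
    have h1 : log ((Y2 : ℝ) / Y1) ≤ 1 + 3 * log t := by
      have h2 : (Y2 : ℝ) / Y1 ≤ 2 * t ^ 3 := by
        rw [div_le_iff₀ hY10]
        calc (Y2 : ℝ) ≤ X * t ^ (3 / 4 : ℝ) := hY2a
          _ ≤ X * t := mul_le_mul_of_nonneg_left ht34' hX0.le
          _ = 2 * t ^ 3 * (X / (2 * t ^ 2)) := by field_simp
          _ ≤ 2 * t ^ 3 * Y1 := mul_le_mul_of_nonneg_left hY1c (by positivity)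
      calc log ((Y2 : ℝ) / Y1) ≤ log (2 * t ^ 3) := by
            apply log_le_log _ h2
            have : (0 : ℝ) < Y2 := by linarith
            positivity
        _ = log 2 + 3 * log t := by
            rw [log_mul (by norm_num) (by positivity), log_pow]; norm_num
        _ ≤ 1 + 3 * log t := by linarith
    have hlogt : 0 ≤ log t := log_nonneg ht1
    have ht12' : 1 ≤ t ^ (1 / 2 : ℝ) := one_le_rpow ht1 (by norm_num)
    have h3 : 8 * (X : ℝ) * (log (Y2 / Y1) + log 2) / log Y1 ≤ 80 * X * u := by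
      calc 8 * (X : ℝ) * (log (Y2 / Y1) + log 2) / log Y1
          ≤ 8 * X * (5 * t ^ (1 / 2 : ℝ)) / (t / 2) := by
            apply div_le_div₀ (by positivity) _ (by positivity) hlogY1'
            apply mul_le_mul_of_nonneg_left _ (by positivity)
            linarith
        _ = 80 * X * (t ^ (1 / 2 : ℝ) / t) := by field_simp; ring
        _ = 80 * X * t ^ (-(1 / 2) : ℝ) := by
            congr 1
            nth_rw 2 [← rpow_one t]
            rw [← rpow_sub ht0]; norm_num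
        _ ≤ 80 * X * u := mul_le_mul_of_nonneg_left ht12 (by positivity)
    have h4 : 8 * (Y2 : ℝ) / log Y2 ≤ 8 * X * u := by
      have h5 : t ≤ log (Y2 : ℝ) := log_le_log hX0 hY2c'
      calc 8 * (Y2 : ℝ) / log Y2 ≤ 8 * (X * t ^ (3 / 4 : ℝ)) / t := by
            apply div_le_div₀ (by positivity) (mul_le_mul_of_nonneg_left hY2a (by norm_num)) ht0 h5
        _ = 8 * X * (t ^ (3 / 4 : ℝ) / t) := by ring
        _ = 8 * X * t ^ (-(1 / 4) : ℝ) := by
            congr 1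
            nth_rw 2 [← rpow_one t]
            rw [← rpow_sub ht0]; norm_num
        _ ≤ 8 * X * u := mul_le_mul_of_nonneg_left ht14 (by positivity)
    have : 0 ≤ (X : ℝ) * u := by positivity
    linarith
  -- B3
  have hB3' : 2 * (X : ℝ) * (18 + 9 * log (Y3 + 1)) / z + 18 * Y3 * (5 * √(log Y3) + 5) ≤
      800 * X * u := by
    have hY30 : (0 : ℝ) < Y3 := by exact_mod_cast (by omega : 0 < Y3)
    have hX1 : (1 : ℝ) ≤ X := by exact_mod_cast (by omega : 1 ≤ X)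
    have hl2 : log 2 < 1 := by have := log_two_lt_d9; linarith
    have h1 : log ((Y3 : ℝ) + 1) ≤ t + 1 := by
      calc log ((Y3 : ℝ) + 1) ≤ log (2 * X) := log_le_log (by positivity) (by linarith)
        _ = log 2 + t := by rw [log_mul (by norm_num) hX0.ne']
        _ ≤ t + 1 := by linarith
    have h2 : 2 * (X : ℝ) * (18 + 9 * log (Y3 + 1)) / z ≤ 54 * X * u := by
      calc 2 * (X : ℝ) * (18 + 9 * log (Y3 + 1)) / z
          = 2 * X * (18 + 9 * log (Y3 + 1)) * (1 / z) := by ring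
        _ ≤ 2 * X * (27 * t) * (u / t) := by
            apply mul_le_mul (mul_le_mul_of_nonneg_left (by linarith) (by positivity)) hinvz
              (by positivity) (by positivity)
        _ = 54 * X * u := by field_simp; ring
    have h3 : √(log (Y3 : ℝ)) ≤ t ^ (1 / 2 : ℝ) := by
      rw [sqrt_eq_rpow]
      apply rpow_le_rpow (log_natCast_nonneg _) _ (by norm_num)
      exact log_le_log hY30 hY3X
    have ht12' : 1 ≤ t ^ (1 / 2 : ℝ) := one_le_rpow ht1 (by norm_num)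
    have h4 : 18 * (Y3 : ℝ) * (5 * √(log Y3) + 5) ≤ 360 * X * u := by
      calc 18 * (Y3 : ℝ) * (5 * √(log Y3) + 5)
          ≤ 18 * (2 * X / t ^ (3 / 4 : ℝ)) * (10 * t ^ (1 / 2 : ℝ)) := by
            apply mul_le_mul (mul_le_mul_of_nonneg_left hY3a (by norm_num)) (by linarith)
              (by positivity) (by positivity)
        _ = 360 * X * (t ^ (1 / 2 : ℝ) / t ^ (3 / 4 : ℝ)) := by ring
        _ = 360 * X * t ^ (-(1 / 4) : ℝ) := by
            congr 1
            rw [← rpow_sub ht0]; norm_num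
        _ ≤ 360 * X * u := mul_le_mul_of_nonneg_left ht14 (by positivity)
    have : 0 ≤ (X : ℝ) * u := by positivity
    linarith
  calc ((bad X z).card : ℝ) ≤ 10 * X * u + 16 * X * u + 100 * X * u + 800 * X * u := by
        linarith
    _ ≤ X * (1000 * u) := by
        have : 0 ≤ (X : ℝ) * u := by positivity
        linarith
    _ ≤ X * t ^ (-(1 / 21) : ℝ) := mul_le_mul_of_nonneg_left hfin hX0.le

end NSC
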