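import Mathlib

/-! Counting lemmas for `n ^ 2 + 1` in residue classes. -/

namespace NSC

open Finset

/-- a finite set of integers of an interval whose differences are multiples of `D` -/
theorem card_le_of_dvd_sub (T : Finset ℕ) (u H D : ℕ) (hD : 0 < D)
    (hT : ∀ n ∈ T, u < n ∧ n ≤ u + H)
    (hd : ∀ n ∈ T, ∀ n' ∈ T, (D : ℤ) ∣ (n : ℤ) - n') : (T.card : ℝ) ≤ H / D + 1 := by
  rcases T.eq_empty_or_nonempty with h | h
  · subst h; simp only [card_empty, Nat.cast_zero]; positivity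
  · set n0 := T.min' h with hn0
    have h0 : n0 ∈ T := T.min'_mem h
    have hle : ∀ n ∈ T, n0 ≤ n := fun n hn => T.min'_le n hn
    have key : T.card ≤ (range (H / D + 1)).card := by
      apply card_le_card_of_injOn (fun n => (n - n0) / D)
      · intro n hn
        simp only [coe_range, Set.mem_Iio]
        have h1 := hT n hn
        have h2 := hT n0 h0
        have h3 : n - n0 ≤ H := by omega
        have := Nat.div_le_div_right (c := D) h3
        omega
      · intro a ha b hb hab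
        simp only at hab
        have h1 : (D : ℤ) ∣ (a : ℤ) - n0 := hd a ha n0 h0
        have h2 : (D : ℤ) ∣ (b : ℤ) - n0 := hd b hb n0 h0
        have h3 : D ∣ a - n0 := by
          have := hle a ha
          have e : ((a - n0 : ℕ) : ℤ) = (a : ℤ) - n0 := by push_cast [this]; ring
          rw [← e] at h1
          exact_mod_cast h1
        have h4 : D ∣ b - n0 := by
          have := hle b hb
          have e : ((b - n0 : ℕ) : ℤ) = (b : ℤ) - n0 := by push_cast [this]; ring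
          rw [← e] at h2
          exact_mod_cast h2
        have h5 := Nat.div_mul_cancel h3
        have h6 := Nat.div_mul_cancel h4
        rw [hab] at h5
        have := hle a ha
        have := hle b hb
        omega
    rw [card_range] at key
    calc (T.card : ℝ) ≤ ((H / D + 1 : ℕ) : ℝ) := by exact_mod_cast key
      _ = ((H / D : ℕ) : ℝ) + 1 := by push_cast; ring
      _ ≤ H / D + 1 := by gcongr; exact Nat.cast_div_le

theorem not_dvd_both {q n n' : ℕ} (hq : q.Prime) (hq2 : q ≠ 2) (hn : q ∣ n ^ 2 + 1)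
    (h1 : (q : ℤ) ∣ (n : ℤ) - n') (h2 : (q : ℤ) ∣ (n : ℤ) + n') : False := by
  have h3 : (q : ℤ) ∣ 2 * n := by
    have := dvd_add h1 h2
    have e : (n : ℤ) - n' + (n + n') = 2 * n := by ring
    rwa [e] at this
  have h4 : q ∣ 2 * n := by exact_mod_cast h3
  rcases (Nat.Prime.dvd_mul hq).1 h4 with h | h
  · exact hq2 ((Nat.prime_dvd_prime_iff_eq hq Nat.prime_two).1 h)
  · have h5 : q ∣ n ^ 2 := dvd_pow h (by norm_num)
    have h6 : q ∣ 1 := (Nat.dvd_add_right h5).1 hn
    exact hq.one_lt.ne' (Nat.dvd_one.1 h6)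

/-- splitting the roots of `-1` modulo a power of an odd prime -/
theorem split_root {q j n n' : ℕ} (hq : q.Prime) (hq2 : q ≠ 2) (hj : 0 < j)
    (hn : q ^ j ∣ n ^ 2 + 1) (hn' : q ^ j ∣ n' ^ 2 + 1) :
    ((q ^ j : ℕ) : ℤ) ∣ (n : ℤ) - n' ∨ ((q ^ j : ℕ) : ℤ) ∣ (n : ℤ) + n' := by
  have hqn : q ∣ n ^ 2 + 1 := (dvd_pow_self q hj.ne').trans hn
  have h : ((q ^ j : ℕ) : ℤ) ∣ ((n : ℤ) - n') * (n + n') := by
    have e : ((n : ℤ) - n') * (n + n') = ((n ^ 2 + 1 : ℕ) : ℤ) - ((n' ^ 2 + 1 : ℕ) : ℤ) := by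
      push_cast; ring
    rw [e]
    exact dvd_sub (by exact_mod_cast hn) (by exact_mod_cast hn')
  have hp : Prime (q : ℤ) := Nat.prime_iff_prime_int.1 hq
  push_cast at h ⊢
  by_cases h1 : (q : ℤ) ∣ (n : ℤ) - n'
  · left
    have h2 : ¬ (q : ℤ) ∣ (n : ℤ) + n' := fun h2 => not_dvd_both hq hq2 hqn h1 h2
    have hc : IsCoprime ((q : ℤ) ^ j) ((n : ℤ) + n') :=
      (IsCoprime.pow_left ((Prime.coprime_iff_not_dvd hp).2 h2))
    exact hc.dvd_of_dvd_mul_right h
  · right
    have hc : IsCoprime ((q : ℤ) ^ j) ((n : ℤ) - n') :=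
      (IsCoprime.pow_left ((Prime.coprime_iff_not_dvd hp).2 h1))
    exact hc.dvd_of_dvd_mul_left h

/-- at most two classes modulo `q ^ j` inside a class modulo `D` -/
theorem two_classes (T : Finset ℕ) (u H D q j : ℕ) (hD : 0 < D) (hq : q.Prime) (hq2 : q ≠ 2)
    (hj : 0 < j) (hDq : D.Coprime q)
    (hT : ∀ n ∈ T, u < n ∧ n ≤ u + H)
    (hd : ∀ n ∈ T, ∀ n' ∈ T, (D : ℤ) ∣ (n : ℤ) - n')
    (hqn : ∀ n ∈ T, q ^ j ∣ n ^ 2 + 1) :
    (T.card : ℝ) ≤ 2 * (H / (D * (q : ℝ) ^ j) + 1) := by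
  classical
  rcases T.eq_empty_or_nonempty with h | ⟨n0, h0⟩
  · subst h; simp only [card_empty, Nat.cast_zero]; positivity
  · set T1 := T.filter (fun n : ℕ => ((q ^ j : ℕ) : ℤ) ∣ (n : ℤ) - n0) with hT1
    set T2 := T.filter (fun n : ℕ => ((q ^ j : ℕ) : ℤ) ∣ (n : ℤ) + n0) with hT2
    have hsub : T ⊆ T1 ∪ T2 := by
      intro n hn
      rw [mem_union, hT1, hT2, mem_filter, mem_filter]
      rcases split_root hq hq2 hj (hqn n hn) (hqn n0 h0) with h | h
      · exact Or.inl ⟨hn, h⟩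
      · exact Or.inr ⟨hn, h⟩
    have hpos : 0 < D * q ^ j := Nat.mul_pos hD (pow_pos hq.pos _)
    have hcop : IsCoprime ((D : ℕ) : ℤ) ((q ^ j : ℕ) : ℤ) :=
      Nat.isCoprime_iff_coprime.2 (Nat.Coprime.pow_right _ hDq)
    have c1 : (T1.card : ℝ) ≤ H / ((D * q ^ j : ℕ) : ℝ) + 1 := by
      apply card_le_of_dvd_sub T1 u H (D * q ^ j) hpos
      · intro n hn; exact hT n (mem_filter.1 hn).1
      · intro n hn n' hn'
        rw [hT1, mem_filter] at hn hn'
        rw [Nat.cast_mul]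
        apply hcop.mul_dvd (hd n hn.1 n' hn'.1)
        have := dvd_sub hn.2 hn'.2
        have e : (n : ℤ) - n0 - (n' - n0) = n - n' := by ring
        rwa [e] at this
    have c2 : (T2.card : ℝ) ≤ H / ((D * q ^ j : ℕ) : ℝ) + 1 := by
      apply card_le_of_dvd_sub T2 u H (D * q ^ j) hpos
      · intro n hn; exact hT n (mem_filter.1 hn).1
      · intro n hn n' hn'
        rw [hT2, mem_filter] at hn hn'
        rw [Nat.cast_mul]
        apply hcop.mul_dvd (hd n hn.1 n' hn'.1)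
        have := dvd_sub hn.2 hn'.2
        have e : (n : ℤ) + n0 - (n' + n0) = n - n' := by ring
        rwa [e] at this
    have hc : (T.card : ℝ) ≤ T1.card + T2.card := by
      exact_mod_cast (card_le_card hsub).trans (card_union_le _ _)
    push_cast at c1 c2
    linarith

/-- the case `D = 1` -/
theorem two_classes_one (T : Finset ℕ) (X q j : ℕ) (hq : q.Prime) (hq2 : q ≠ 2)
    (hj : 0 < j) (hT : ∀ n ∈ T, 0 < n ∧ n ≤ X) (hqn : ∀ n ∈ T, q ^ j ∣ n ^ 2 + 1) :
    (T.card : ℝ) ≤ 2 * (X / (q : ℝ) ^ j + 1) := by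
  have := two_classes T 0 X 1 q j one_pos hq hq2 hj (Nat.coprime_one_left q)
    (by intro n hn; have := hT n hn; omega) (by intro n _ n' _; simp) hqn
  simpa using this

/-- two distinct odd primes: at most four classes -/
theorem four_classes (T : Finset ℕ) (X p q : ℕ) (hp : p.Prime) (hp2 : p ≠ 2) (hq : q.Prime)
    (hq2 : q ≠ 2) (hpq : p ≠ q)
    (hT : ∀ n ∈ T, 0 < n ∧ n ≤ X) (hpn : ∀ n ∈ T, p ∣ n ^ 2 + 1) (hqn : ∀ n ∈ T, q ∣ n ^ 2 + 1) :
    (T.card : ℝ) ≤ 4 * (X / (p * q : ℝ) + 1) := by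
  classical
  rcases T.eq_empty_or_nonempty with h | ⟨n0, h0⟩
  · subst h; simp only [card_empty, Nat.cast_zero]; positivity
  · set T1 := T.filter (fun n : ℕ => ((p : ℕ) : ℤ) ∣ (n : ℤ) - n0) with hT1
    set T2 := T.filter (fun n : ℕ => ((p : ℕ) : ℤ) ∣ (n : ℤ) + n0) with hT2
    have hsub : T ⊆ T1 ∪ T2 := by
      intro n hn
      rw [mem_union, hT1, hT2, mem_filter, mem_filter]
      have h1 : p ^ 1 ∣ n ^ 2 + 1 := by simpa using hpn n hn
      have h2 : p ^ 1 ∣ n0 ^ 2 + 1 := by simpa using hpn n0 h0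
      have := split_root hp hp2 one_pos h1 h2
      rw [pow_one] at this
      rcases this with h | h
      · exact Or.inl ⟨hn, h⟩
      · exact Or.inr ⟨hn, h⟩
    have hcop : Nat.Coprime p q := (Nat.coprime_primes hp hq).2 hpq
    have c1 : (T1.card : ℝ) ≤ 2 * (X / (p * (q : ℝ) ^ 1) + 1) := by
      apply two_classes T1 0 X p q 1 hp.pos hq hq2 one_pos hcop
      · intro n hn
        have := hT n (mem_filter.1 hn).1
        omega
      · intro n hn n' hn'
        rw [hT1, mem_filter] at hn hn'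
        have := dvd_sub hn.2 hn'.2
        have e : (n : ℤ) - n0 - (n' - n0) = n - n' := by ring
        rwa [e] at this
      · intro n hn
        simpa using hqn n (mem_filter.1 hn).1
    have c2 : (T2.card : ℝ) ≤ 2 * (X / (p * (q : ℝ) ^ 1) + 1) := by
      apply two_classes T2 0 X p q 1 hp.pos hq hq2 one_pos hcop
      · intro n hn
        have := hT n (mem_filter.1 hn).1
        omega
      · intro n hn n' hn'
        rw [hT2, mem_filter] at hn hn'
        have := dvd_sub hn.2 hn'.2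
        have e : (n : ℤ) + n0 - (n' + n0) = n - n' := by ring
        rwa [e] at this
      · intro n hn
        simpa using hqn n (mem_filter.1 hn).1
    have hc : (T.card : ℝ) ≤ T1.card + T2.card := by
      exact_mod_cast (card_le_card hsub).trans (card_union_le _ _)
    rw [pow_one] at c1 c2
    linarith

/-- if `N` is not a cyclic number -/
theorem not_cyclic {N : ℕ} (hN : N ≠ 0) (h : ¬ Nat.Coprime N (Nat.totient N)) :
    ∃ q, q.Prime ∧ q ∣ N ∧ (q ^ 2 ∣ N ∨ ∃ p, p.Prime ∧ p ∣ N ∧ q ∣ p - 1) := by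
  obtain ⟨q, hq, hqN, hqt⟩ := Nat.Prime.not_coprime_iff_dvd.1 h
  refine ⟨q, hq, hqN, ?_⟩
  rw [Nat.totient_eq_prod_factorization hN, Finsupp.prod] at hqt
  obtain ⟨p, hp, hqp⟩ := (Prime.dvd_finsetProd_iff hq.prime _).1 hqt
  have hp' : p ∈ N.primeFactors := hp
  have hpp := Nat.prime_of_mem_primeFactors hp'
  rcases (Nat.Prime.dvd_mul hq).1 hqp with h1 | h1
  · left
    have h2 : N.factorization p - 1 ≠ 0 := by
      intro h0
      rw [h0, pow_zero] at h1
      exact hq.one_lt.ne' (Nat.dvd_one.1 h1)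
    have h3 : q = p := (Nat.prime_dvd_prime_iff_eq hq hpp).1 (hq.dvd_of_dvd_pow h1)
    subst h3
    exact (hq.pow_dvd_iff_le_factorization hN).2 (by omega)
  · right
    exact ⟨p, hpp, Nat.dvd_of_mem_primeFactors hp', h1⟩

end NSC
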