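import Pool.Agent.helper37.NS.RoughLB

/-! Almost all intervals between consecutive `k`-th powers contain many cyclic `n ^ 2 + 1`. -/

namespace NSC

open Finset Real Filter

/-- the cyclic numbers `n ^ 2 + 1` strictly between `m ^ k` and `(m + 1) ^ k` -/
def nsc (k m : ℕ) : Set ℕ :=
  {c | (∃ n : ℕ, 1 ≤ n ∧ c = n ^ 2 + 1) ∧ Nat.Coprime c (Nat.totient c) ∧
    m ^ k < c ∧ c < (m + 1) ^ k}

/-- an interval of `n` with `n ^ 2 + 1` strictly between `m ^ k` and `(m + 1) ^ k` -/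
def iv (k m : ℕ) : Finset ℕ := Ioc (Nat.sqrt (m ^ k)) (Nat.sqrt ((m + 1) ^ k) - 1)

theorem iv_cyc_card (k m : ℕ) : ((iv k m).filter Cyc).card ≤ (nsc k m).ncard := by
  have hfin : (nsc k m).Finite :=
    (Set.finite_lt_nat ((m + 1) ^ k)).subset (fun c hc => hc.2.2.2)
  rw [← Set.ncard_coe_finset]
  apply Set.ncard_le_ncard_of_injOn (fun n => n ^ 2 + 1) _ _ hfin
  · intro n hn
    rw [coe_filter, Set.mem_ofPred_eq, iv, mem_Ioc] at hn
    obtain ⟨⟨h1, h2⟩, hc⟩ := hn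
    have hn1 : 1 ≤ n := by omega
    refine ⟨⟨n, hn1, rfl⟩, hc, ?_, ?_⟩
    · have h3 : m ^ k < n ^ 2 := by
        rw [pow_two]; exact Nat.sqrt_lt.1 h1
      show m ^ k < n ^ 2 + 1
      omega
    · have h3 : (n + 1) * (n + 1) ≤ (m + 1) ^ k := by
        apply Nat.le_sqrt.1
        omega
      show n ^ 2 + 1 < (m + 1) ^ k
      nlinarith
  · intro a _ b _ hab
    have h : a ^ 2 = b ^ 2 := by simpa using hab
    exact (Nat.pow_left_injective (by norm_num : (2 : ℕ) ≠ 0)) h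

theorem iv_disjoint (k : ℕ) {m m' : ℕ} (h : m < m') : Disjoint (iv k m) (iv k m') := by
  rw [disjoint_left]
  intro n h1 h2
  rw [iv, mem_Ioc] at h1 h2
  have : Nat.sqrt ((m + 1) ^ k) ≤ Nat.sqrt (m' ^ k) :=
    Nat.sqrt_le_sqrt (Nat.pow_le_pow_left h k)
  omega

/-- length of the interval -/
theorem iv_len {k m : ℕ} (hk : 3 ≤ k) (hm : 16 ≤ m) :
    ∃ H : ℕ, iv k m = Ioc (Nat.sqrt (m ^ k)) (Nat.sqrt (m ^ k) + H) ∧
      (m : ℝ) ^ ((k : ℝ) / 2 - 1) ≤ H := by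
  have hm0 : (0 : ℝ) < m := by exact_mod_cast (by omega : 0 < m)
  have hm16 : (16 : ℝ) ≤ m := by exact_mod_cast hm
  have hk3 : (3 : ℝ) ≤ k := by exact_mod_cast hk
  set a := (m : ℝ) ^ ((k : ℝ) / 2 - 1) with ha
  have ha4 : 4 ≤ a := by
    calc (4 : ℝ) = (16 : ℝ) ^ (1 / 2 : ℝ) := by
          rw [show (16 : ℝ) = 4 ^ (2 : ℝ) by norm_num, ← rpow_mul (by norm_num)]; norm_num
      _ ≤ (m : ℝ) ^ (1 / 2 : ℝ) := rpow_le_rpow (by norm_num) hm16 (by norm_num)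
      _ ≤ a := rpow_le_rpow_of_exponent_le (by linarith) (by linarith)
  have h1 : (Nat.sqrt (m ^ k) : ℝ) ≤ (m : ℝ) ^ ((k : ℝ) / 2) := by
    have := Real.nat_sqrt_le_real_sqrt (a := m ^ k)
    refine this.trans (le_of_eq ?_)
    push_cast
    rw [sqrt_eq_rpow, ← rpow_natCast, ← rpow_mul hm0.le]
    ring_nf
  have h2 : ((m : ℝ) + 1) ^ ((k : ℝ) / 2) ≤ (Nat.sqrt ((m + 1) ^ k) : ℝ) + 1 := by
    have := (Real.real_sqrt_lt_nat_sqrt_succ (a := (m + 1) ^ k)).le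
    refine le_trans (le_of_eq ?_) this
    push_cast
    rw [sqrt_eq_rpow, ← rpow_natCast, ← rpow_mul (by positivity)]
    ring_nf
  have h3 : (m : ℝ) ^ ((k : ℝ) / 2) + (k : ℝ) / 2 * a ≤ ((m : ℝ) + 1) ^ ((k : ℝ) / 2) := by
    have hb := one_add_mul_self_le_rpow_one_add (s := (1 : ℝ) / m) (by
      have : 0 ≤ (1 : ℝ) / m := by positivity
      linarith) (p := (k : ℝ) / 2) (by linarith)
    have e1 : ((m : ℝ) + 1) ^ ((k : ℝ) / 2) =
        (m : ℝ) ^ ((k : ℝ) / 2) * (1 + 1 / (m : ℝ)) ^ ((k : ℝ) / 2) := by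
      rw [← mul_rpow hm0.le (by positivity)]
      congr 1
      field_simp
    have e2 : a = (m : ℝ) ^ ((k : ℝ) / 2) * (1 / m) := by
      rw [ha, rpow_sub hm0, rpow_one]; ring
    rw [e1, e2]
    calc (m : ℝ) ^ ((k : ℝ) / 2) + (k : ℝ) / 2 * ((m : ℝ) ^ ((k : ℝ) / 2) * (1 / m))
        = (m : ℝ) ^ ((k : ℝ) / 2) * (1 + (k : ℝ) / 2 * (1 / m)) := by ring
      _ ≤ _ := mul_le_mul_of_nonneg_left hb (by positivity)
  have h4 : 3 / 2 * a ≤ (k : ℝ) / 2 * a := by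
    apply mul_le_mul_of_nonneg_right (by linarith) (by linarith)
  have h5 : (Nat.sqrt (m ^ k) : ℝ) + a + 1 ≤ (Nat.sqrt ((m + 1) ^ k) : ℝ) := by linarith
  have h6 : Nat.sqrt (m ^ k) + 1 ≤ Nat.sqrt ((m + 1) ^ k) := by
    have : (Nat.sqrt (m ^ k) : ℝ) + 1 ≤ (Nat.sqrt ((m + 1) ^ k) : ℝ) := by linarith
    exact_mod_cast this
  refine ⟨Nat.sqrt ((m + 1) ^ k) - 1 - Nat.sqrt (m ^ k), ?_, ?_⟩
  · rw [iv]
    congr 1
    omega
  · have h7 : Nat.sqrt ((m + 1) ^ k) - 1 - Nat.sqrt (m ^ k) + Nat.sqrt (m ^ k) + 1 =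
        Nat.sqrt ((m + 1) ^ k) := by omega
    have h8 : ((Nat.sqrt ((m + 1) ^ k) - 1 - Nat.sqrt (m ^ k) : ℕ) : ℝ) + Nat.sqrt (m ^ k) + 1 =
        Nat.sqrt ((m + 1) ^ k) := by exact_mod_cast h7
    linarith

/-- the exceptional `m` -/
def exc (k : ℕ) : Set ℕ :=
  {m | ((nsc k m).ncard : ℝ) < (m : ℝ) ^ ((k : ℝ) / 2 - 1) / (log (m : ℝ)) ^ (1 / 500 : ℝ)}

theorem tendsto_X {k : ℕ} (hk : 3 ≤ k) :
    Tendsto (fun M : ℕ => Nat.sqrt ((2 * M + 1) ^ k)) atTop atTop := by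
  apply tendsto_atTop_mono (f := fun M : ℕ => M) _ tendsto_id
  intro M
  rw [Nat.le_sqrt]
  calc M * M ≤ (2 * M + 1) * (2 * M + 1) := Nat.mul_le_mul (by omega) (by omega)
    _ = (2 * M + 1) ^ 2 := by ring
    _ ≤ (2 * M + 1) ^ k := Nat.pow_le_pow_right (by omega) (by omega)

theorem dyadic {k : ℕ} (hk : 3 ≤ k) : ∀ᶠ M : ℕ in atTop,
    (({m | m ∈ exc k ∧ M < m ∧ m ≤ 2 * M}.ncard : ℕ) : ℝ) ≤
      M * (log (M : ℝ)) ^ (-(1 / 22) : ℝ) := by
  have hk3 : (3 : ℝ) ≤ k := by exact_mod_cast hk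
  set δ : ℝ := 1 / 2 - 1 / k with hδdef
  have hδ : 0 < δ := by
    rw [hδdef, sub_pos]
    apply one_div_lt_one_div_of_lt (by norm_num); linarith
  have hlog : ∀ᶠ t : ℝ in atTop, (k : ℝ) ^ (1 / 500 : ℝ) * 2 ≤ t ^ (1 / 1000 : ℝ) ∧
      2 * (3 : ℝ) ^ ((k : ℝ) / 2) ≤ t ^ (1 / 21 - 1 / 1000 - 1 / 22 : ℝ) ∧ 1 ≤ t := by
    filter_upwards [(tendsto_rpow_atTop (by norm_num : (0 : ℝ) < 1 / 1000)).eventually_ge_atTop
      ((k : ℝ) ^ (1 / 500 : ℝ) * 2), (tendsto_rpow_atTop (by norm_num :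
      (0 : ℝ) < 1 / 21 - 1 / 1000 - 1 / 22)).eventually_ge_atTop (2 * (3 : ℝ) ^ ((k : ℝ) / 2)),
      eventually_ge_atTop 1] with t a b c
    exact ⟨a, b, c⟩
  filter_upwards [(tendsto_X hk).eventually (rough_lb hδ), (tendsto_X hk).eventually card_bad_asym,
    (tendsto_log_nat.comp (tendsto_X hk)).eventually hlog, eventually_ge_atTop 16] with
    M hrough hbad hlogM hM16
  classical
  set X := Nat.sqrt ((2 * M + 1) ^ k) with hX
  simp only [Function.comp] at hlogM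
  rw [← hX] at hlogM
  set t := log (X : ℝ) with ht
  obtain ⟨hc1, hc2, hc3⟩ := hlogM
  have ht0 : 0 < t := by linarith
  have hM0 : (0 : ℝ) < M := by exact_mod_cast (by omega : 0 < M)
  have hM1 : (1 : ℝ) < M := by exact_mod_cast (by omega : 1 < M)
  have hM16' : (16 : ℝ) ≤ M := by exact_mod_cast hM16
  have hMX : M ≤ X := by
    rw [hX, Nat.le_sqrt]
    calc M * M ≤ (2 * M + 1) * (2 * M + 1) := Nat.mul_le_mul (by omega) (by omega)
      _ = (2 * M + 1) ^ 2 := by ring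
      _ ≤ (2 * M + 1) ^ k := Nat.pow_le_pow_right (by omega) (by omega)
  have hMX' : (M : ℝ) ≤ X := by exact_mod_cast hMX
  have hX0 : (0 : ℝ) < X := by linarith
  have hlogMpos : 0 < log (M : ℝ) := log_pos hM1
  have hlogMt : log (M : ℝ) ≤ t := log_le_log hM0 hMX'
  -- X is at most (3M)^(k/2)
  have hXle : (X : ℝ) ≤ (3 * (M : ℝ)) ^ ((k : ℝ) / 2) := by
    have := Real.nat_sqrt_le_real_sqrt (a := (2 * M + 1) ^ k)
    rw [← hX] at this
    refine this.trans ?_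
    push_cast
    rw [sqrt_eq_rpow, ← rpow_natCast, ← rpow_mul (by positivity)]
    have e : (k : ℝ) * (1 / 2) = (k : ℝ) / 2 := by ring
    rw [e]
    apply rpow_le_rpow (by positivity) (by linarith) (by positivity)
  have hXle2 : (X : ℝ) ≤ (M : ℝ) ^ (k : ℝ) := by
    refine hXle.trans ?_
    have e : (M : ℝ) ^ (k : ℝ) = ((M : ℝ) * M) ^ ((k : ℝ) / 2) := by
      rw [← pow_two, ← rpow_natCast, ← rpow_mul hM0.le]
      congr 1
      push_cast; ring
    rw [e]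
    apply rpow_le_rpow (by positivity) (by nlinarith) (by positivity)
  have htk : t ≤ k * log M := by
    rw [← log_rpow hM0]
    exact log_le_log hX0 hXle2
  have hXδ : (X : ℝ) ^ δ ≤ (M : ℝ) ^ ((k : ℝ) / 2 - 1) := by
    calc (X : ℝ) ^ δ ≤ ((M : ℝ) ^ (k : ℝ)) ^ δ := rpow_le_rpow hX0.le hXle2 hδ.le
      _ = (M : ℝ) ^ ((k : ℝ) / 2 - 1) := by
          rw [← rpow_mul hM0.le]
          congr 1
          rw [hδdef]; field_simp
  set E := (Ioc M (2 * M)).filter (fun m => m ∈ exc k) with hE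
  have hEcard : {m | m ∈ exc k ∧ M < m ∧ m ≤ 2 * M}.ncard = E.card := by
    rw [← Set.ncard_coe_finset]
    congr 1
    ext m
    simp only [hE, Set.mem_ofPred_eq, coe_filter, mem_Ioc]
    tauto
  rw [hEcard]
  set h0 := (M : ℝ) ^ ((k : ℝ) / 2 - 1) with hh0
  have hh00 : 0 < h0 := by positivity
  -- each exceptional m
  have hper : ∀ m ∈ E, h0 * t ^ (-(1 / 1000) : ℝ) / 2 ≤
      (((iv k m).filter (fun n => Rough (lev X) n ∧ ¬ Cyc n)).card : ℝ) := by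
    intro m hm
    rw [hE, mem_filter, mem_Ioc] at hm
    obtain ⟨⟨hmM, hm2⟩, hmexc⟩ := hm
    have hmM' : (M : ℝ) < m := by exact_mod_cast hmM
    have hm0 : (0 : ℝ) < m := by linarith
    obtain ⟨H, hiv, hH⟩ := iv_len hk (by omega : 16 ≤ m)
    set hmm := (m : ℝ) ^ ((k : ℝ) / 2 - 1) with hhmm
    have hh0m : h0 ≤ hmm := rpow_le_rpow hM0.le hmM'.le (by linarith)
    have hr := hrough (Nat.sqrt (m ^ k)) H (hXδ.trans (hh0m.trans hH))
    rw [← hiv] at hr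
    have hcyc : (((iv k m).filter Cyc).card : ℝ) ≤ ((nsc k m).ncard : ℝ) := by
      exact_mod_cast iv_cyc_card k m
    have hmexc' : ((nsc k m).ncard : ℝ) < hmm / (log (m : ℝ)) ^ (1 / 500 : ℝ) := hmexc
    have hlogm : log (M : ℝ) ≤ log (m : ℝ) := log_le_log hM0 hmM'.le
    have hlogm0 : 0 < log (m : ℝ) := by linarith
    have hkey : hmm / (log (m : ℝ)) ^ (1 / 500 : ℝ) ≤ hmm * t ^ (-(1 / 1000) : ℝ) / 2 := by
      have h1 : t ^ (1 / 500 : ℝ) ≤ (k : ℝ) ^ (1 / 500 : ℝ) * (log (m : ℝ)) ^ (1 / 500 : ℝ) := by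
        rw [← mul_rpow (by positivity) hlogm0.le]
        apply rpow_le_rpow ht0.le _ (by norm_num)
        refine htk.trans ?_
        exact mul_le_mul_of_nonneg_left hlogm (by positivity)
      have h2 : t ^ (1 / 500 : ℝ) = t ^ (1 / 1000 : ℝ) * t ^ (1 / 1000 : ℝ) := by
        rw [← rpow_add ht0]; norm_num
      have h3 : 0 < t ^ (1 / 1000 : ℝ) := by positivity
      have h4 : 0 < (log (m : ℝ)) ^ (1 / 500 : ℝ) := by positivity
      have h5 : 2 * t ^ (1 / 1000 : ℝ) ≤ (log (m : ℝ)) ^ (1 / 500 : ℝ) := by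
        have hkk : (0 : ℝ) < (k : ℝ) ^ (1 / 500 : ℝ) := by positivity
        have h6 : (k : ℝ) ^ (1 / 500 : ℝ) * (2 * t ^ (1 / 1000 : ℝ)) ≤
            (k : ℝ) ^ (1 / 500 : ℝ) * (log (m : ℝ)) ^ (1 / 500 : ℝ) := by
          calc (k : ℝ) ^ (1 / 500 : ℝ) * (2 * t ^ (1 / 1000 : ℝ))
              = ((k : ℝ) ^ (1 / 500 : ℝ) * 2) * t ^ (1 / 1000 : ℝ) := by ring
            _ ≤ t ^ (1 / 1000 : ℝ) * t ^ (1 / 1000 : ℝ) :=
                mul_le_mul_of_nonneg_right hc1 h3.le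
            _ = t ^ (1 / 500 : ℝ) := h2.symm
            _ ≤ _ := h1
        exact le_of_mul_le_mul_left h6 hkk
      rw [rpow_neg ht0.le, ← div_eq_mul_inv, div_div]
      apply div_le_div_of_nonneg_left (by positivity) (by positivity)
      linarith
    have hH0 : hmm * t ^ (-(1 / 1000) : ℝ) ≤ H * t ^ (-(1 / 1000) : ℝ) :=
      mul_le_mul_of_nonneg_right hH (by positivity)
    have hsplit : (((iv k m).filter (Rough (lev X))).card : ℝ) ≤
        (((iv k m).filter (fun n => Rough (lev X) n ∧ ¬ Cyc n)).card : ℝ) +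
        (((iv k m).filter Cyc).card : ℝ) := by
      have hsub : (iv k m).filter (Rough (lev X)) ⊆
          (iv k m).filter (fun n => Rough (lev X) n ∧ ¬ Cyc n) ∪ (iv k m).filter Cyc := by
        intro n hn
        rw [mem_filter] at hn
        rw [mem_union, mem_filter, mem_filter]
        by_cases hcc : Cyc n
        · right; exact ⟨hn.1, hcc⟩
        · left; exact ⟨hn.1, hn.2, hcc⟩
      have := (card_le_card hsub).trans (card_union_le _ _)
      exact_mod_cast this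
    have hfin : h0 * t ^ (-(1 / 1000) : ℝ) ≤ hmm * t ^ (-(1 / 1000) : ℝ) :=
      mul_le_mul_of_nonneg_right hh0m (by positivity)
    linarith
  -- sum over the exceptional m
  have hbadsum : ∑ m ∈ E, ((iv k m).filter (fun n => Rough (lev X) n ∧ ¬ Cyc n)).card ≤
      (bad X (lev X)).card := by
    rw [← card_biUnion]
    · apply card_le_card
      intro n hn
      rw [mem_biUnion] at hn
      obtain ⟨m, hm, hn⟩ := hn
      rw [hE, mem_filter, mem_Ioc] at hm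
      rw [mem_filter, iv, mem_Ioc] at hn
      rw [bad, mem_filter, mem_Icc]
      refine ⟨⟨by omega, ?_⟩, hn.2⟩
      have : Nat.sqrt ((m + 1) ^ k) ≤ X := by
        rw [hX]
        apply Nat.sqrt_le_sqrt
        apply Nat.pow_le_pow_left
        omega
      omega
    · intro m hm m' hm' hne
      have hd : Disjoint (iv k m) (iv k m') := by
        rcases lt_or_gt_of_ne hne with h | h
        · exact iv_disjoint k h
        · exact (iv_disjoint k h).symm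
      exact disjoint_filter_filter hd
  have hsum : (E.card : ℝ) * (h0 * t ^ (-(1 / 1000) : ℝ) / 2) ≤ X * t ^ (-(1 / 21) : ℝ) := by
    calc (E.card : ℝ) * (h0 * t ^ (-(1 / 1000) : ℝ) / 2)
        = ∑ m ∈ E, (h0 * t ^ (-(1 / 1000) : ℝ) / 2) := by rw [sum_const, nsmul_eq_mul]
      _ ≤ ∑ m ∈ E, (((iv k m).filter (fun n => Rough (lev X) n ∧ ¬ Cyc n)).card : ℝ) :=
          sum_le_sum hper
      _ ≤ ((bad X (lev X)).card : ℝ) := by exact_mod_cast hbadsum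
      _ ≤ X * t ^ (-(1 / 21) : ℝ) := hbad
  have hX3 : (X : ℝ) ≤ (3 : ℝ) ^ ((k : ℝ) / 2) * (M * h0) := by
    refine hXle.trans (le_of_eq ?_)
    rw [mul_rpow (by norm_num) hM0.le]
    congr 1
    rw [hh0]
    nth_rw 2 [← rpow_one (M : ℝ)]
    rw [← rpow_add hM0]
    congr 1; ring
  have hE1 : (E.card : ℝ) ≤ M * (2 * (3 : ℝ) ^ ((k : ℝ) / 2)) *
      (t ^ (-(1 / 21) : ℝ) * t ^ (1 / 1000 : ℝ)) := by
    have hpos : 0 < h0 * t ^ (-(1 / 1000) : ℝ) / 2 := by positivity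
    rw [← mul_le_mul_iff_left₀ hpos]
    refine hsum.trans ?_
    calc (X : ℝ) * t ^ (-(1 / 21) : ℝ) ≤ (3 : ℝ) ^ ((k : ℝ) / 2) * (M * h0) *
          t ^ (-(1 / 21) : ℝ) := mul_le_mul_of_nonneg_right hX3 (by positivity)
      _ = M * (2 * (3 : ℝ) ^ ((k : ℝ) / 2)) * (t ^ (-(1 / 21) : ℝ) * t ^ (1 / 1000 : ℝ)) *
          (h0 * t ^ (-(1 / 1000) : ℝ) / 2) := by
          have h3 : t ^ (1 / 1000 : ℝ) * t ^ (-(1 / 1000) : ℝ) = 1 := by
            rw [← rpow_add ht0]; norm_num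
          calc (3 : ℝ) ^ ((k : ℝ) / 2) * (M * h0) * t ^ (-(1 / 21) : ℝ)
              = (3 : ℝ) ^ ((k : ℝ) / 2) * (M * h0) * t ^ (-(1 / 21) : ℝ) *
                (t ^ (1 / 1000 : ℝ) * t ^ (-(1 / 1000) : ℝ)) := by rw [h3, mul_one]
            _ = _ := by ring
  refine hE1.trans ?_
  have h4 : t ^ (-(1 / 21) : ℝ) * t ^ (1 / 1000 : ℝ) =
      t ^ (-(1 / 22) : ℝ) * (t ^ (1 / 21 - 1 / 1000 - 1 / 22 : ℝ))⁻¹ := by
    rw [← rpow_neg ht0.le, ← rpow_add ht0, ← rpow_add ht0]; norm_num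
  rw [h4]
  have h5 : 2 * (3 : ℝ) ^ ((k : ℝ) / 2) * (t ^ (1 / 21 - 1 / 1000 - 1 / 22 : ℝ))⁻¹ ≤ 1 := by
    rw [← div_eq_mul_inv, div_le_one (by positivity)]
    exact hc2
  have h6 : t ^ (-(1 / 22) : ℝ) ≤ (log (M : ℝ)) ^ (-(1 / 22) : ℝ) :=
    rpow_le_rpow_of_nonpos hlogMpos hlogMt (by norm_num)
  calc (M : ℝ) * (2 * (3 : ℝ) ^ ((k : ℝ) / 2)) *
      (t ^ (-(1 / 22) : ℝ) * (t ^ (1 / 21 - 1 / 1000 - 1 / 22 : ℝ))⁻¹)
      = M * t ^ (-(1 / 22) : ℝ) *
        (2 * (3 : ℝ) ^ ((k : ℝ) / 2) * (t ^ (1 / 21 - 1 / 1000 - 1 / 22 : ℝ))⁻¹) := by ring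
    _ ≤ M * t ^ (-(1 / 22) : ℝ) * 1 := mul_le_mul_of_nonneg_left h5 (by positivity)
    _ ≤ M * (log (M : ℝ)) ^ (-(1 / 22) : ℝ) := by
        rw [mul_one]; exact mul_le_mul_of_nonneg_left h6 hM0.le

/-- from dyadic blocks to `m ≤ N` -/
theorem all_N {k : ℕ} (hk : 3 ≤ k) : ∀ᶠ N : ℕ in atTop,
    (({m | m ∈ exc k ∧ 1 ≤ m ∧ m ≤ N}.ncard : ℕ) : ℝ) ≤
      N / (log (N : ℝ)) ^ (1 / 25 : ℝ) := by
  classical
  obtain ⟨M0, hM0⟩ := eventually_atTop.1 (dyadic hk)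
  have hlog : ∀ᶠ t : ℝ in atTop, 6 * (2 : ℝ) ^ (1 / 22 : ℝ) ≤ t ^ (1 / 22 - 1 / 25 : ℝ) ∧
      8 * t ^ (1 / 25 : ℝ) ≤ exp (t / 2) ∧ 16 ≤ t := by
    filter_upwards [(tendsto_rpow_atTop (by norm_num :
      (0 : ℝ) < 1 / 22 - 1 / 25)).eventually_ge_atTop (6 * (2 : ℝ) ^ (1 / 22 : ℝ)),
      asym_cond] with t a b
    obtain ⟨b1, b2, _⟩ := b
    refine ⟨a, ?_, b1⟩
    have h1 : t ^ (1 / 25 : ℝ) ≤ t ^ (1 : ℝ) :=
      rpow_le_rpow_of_exponent_le (by linarith) (by norm_num)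
    rw [rpow_one] at h1
    nlinarith
  filter_upwards [tendsto_log_nat.eventually hlog, eventually_ge_atTop (M0 ^ 2 + 3)] with N hN hNM
  set t := log (N : ℝ) with ht
  obtain ⟨hc1, hc2, hc3⟩ := hN
  have ht0 : 0 < t := by linarith
  have hN0 : (0 : ℝ) < N := by exact_mod_cast (by omega : 0 < N)
  have hNexp : exp t = N := by rw [ht]; exact exp_log hN0
  set R := Nat.sqrt N + 1 with hR
  have hRM : M0 ≤ R := by
    have h1 : M0 ≤ Nat.sqrt N := by
      rw [Nat.le_sqrt]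
      have : M0 * M0 = M0 ^ 2 := by ring
      omega
    omega
  have hRsq : exp (t / 2) ≤ R := by
    have h1 := (Real.real_sqrt_lt_nat_sqrt_succ (a := N)).le
    have h2 : √(N : ℝ) = exp (t / 2) := by
      rw [← hNexp, sqrt_eq_rpow, ← exp_mul]
      congr 1; ring
    rw [h2] at h1
    rw [hR]; push_cast; exact h1
  have hRle : (R : ℝ) ≤ exp (t / 2) + 1 := by
    have h1 := Real.nat_sqrt_le_real_sqrt (a := N)
    have h2 : √(N : ℝ) = exp (t / 2) := by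
      rw [← hNexp, sqrt_eq_rpow, ← exp_mul]
      congr 1; ring
    rw [h2] at h1
    rw [hR]; push_cast; linarith
  set c := (t / 2) ^ (-(1 / 22) : ℝ) with hc
  have hc0 : 0 < c := by positivity
  set F : ℕ → ℕ := fun n => ((Icc 1 n).filter (fun m => m ∈ exc k)).card with hF
  have hD : ∀ M, R ≤ M → (((Ioc M (2 * M)).filter (fun m => m ∈ exc k)).card : ℝ) ≤ c * M := by
    intro M hM
    have h1 := hM0 M (by omega)
    have h2 : {m | m ∈ exc k ∧ M < m ∧ m ≤ 2 * M}.ncard =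
        ((Ioc M (2 * M)).filter (fun m => m ∈ exc k)).card := by
      rw [← Set.ncard_coe_finset]
      congr 1
      ext m
      simp only [Set.mem_ofPred_eq, coe_filter, mem_Ioc]
      tauto
    rw [h2] at h1
    refine h1.trans ?_
    rw [mul_comm]
    apply mul_le_mul_of_nonneg_right _ (by positivity)
    have hMR : (R : ℝ) ≤ M := by exact_mod_cast hM
    have h3 : t / 2 ≤ log (M : ℝ) := by
      rw [le_log_iff_exp_le (by linarith [exp_pos (t / 2)])]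
      linarith
    exact rpow_le_rpow_of_nonpos (by positivity) h3 (by norm_num)
  have hFle : ∀ n, (F n : ℝ) ≤ 2 * R + 3 * c * n := by
    intro n
    induction n using Nat.strong_induction_on with
    | _ n ih =>
      by_cases hn : n ≤ 2 * R
      · have h1 : F n ≤ n := by
          calc F n ≤ (Icc 1 n).card := card_filter_le _ _
            _ = n := by rw [Nat.card_Icc]; omega
        have h2 : (F n : ℝ) ≤ n := by exact_mod_cast h1
        have h3 : (n : ℝ) ≤ 2 * R := by exact_mod_cast hn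
        have : 0 ≤ 3 * c * n := by positivity
        linarith
      · set h := (n + 1) / 2 with hh
        have hlt : h < n := by omega
        have hRh : R ≤ h := by omega
        have h1 := ih h hlt
        have h2 := hD h hRh
        have h3 : F n ≤ F h + ((Ioc h (2 * h)).filter (fun m => m ∈ exc k)).card := by
          have hsub : (Icc 1 n).filter (fun m => m ∈ exc k) ⊆
              (Icc 1 h).filter (fun m => m ∈ exc k) ∪
              (Ioc h (2 * h)).filter (fun m => m ∈ exc k) := by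
            intro m hm
            rw [mem_filter, mem_Icc] at hm
            rw [mem_union, mem_filter, mem_Icc, mem_filter, mem_Ioc]
            by_cases hmh : m ≤ h
            · left; exact ⟨⟨hm.1.1, hmh⟩, hm.2⟩
            · right; exact ⟨by omega, hm.2⟩
          exact (card_le_card hsub).trans (card_union_le _ _)
        have h4 : (F n : ℝ) ≤ F h + (((Ioc h (2 * h)).filter (fun m => m ∈ exc k)).card : ℝ) := by
          exact_mod_cast h3
        have h5 : (h : ℝ) ≤ (n + 1) / 2 := by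
          have : 2 * h ≤ n + 1 := by omega
          have : 2 * (h : ℝ) ≤ n + 1 := by exact_mod_cast this
          linarith
        have h6 : (2 : ℝ) ≤ n := by exact_mod_cast (by omega : 2 ≤ n)
        have h7 : 4 * c * h ≤ 4 * c * ((n + 1) / 2) :=
          mul_le_mul_of_nonneg_left h5 (by positivity)
        have h8 : 4 * c * (((n : ℝ) + 1) / 2) ≤ 3 * c * n := by nlinarith
        linarith
  have hcard : {m | m ∈ exc k ∧ 1 ≤ m ∧ m ≤ N}.ncard = F N := by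
    rw [hF]
    simp only
    rw [← Set.ncard_coe_finset]
    congr 1
    ext m
    simp only [Set.mem_ofPred_eq, coe_filter, mem_Icc]
    tauto
  rw [hcard]
  refine (hFle N).trans ?_
  have hu : 0 < t ^ (1 / 25 : ℝ) := by positivity
  rw [le_div_iff₀ hu]
  have h1 : 2 * (R : ℝ) * t ^ (1 / 25 : ℝ) ≤ N / 2 := by
    have hE1 : 1 ≤ exp (t / 2) := one_le_exp (by positivity)
    have h2 : (N : ℝ) = exp (t / 2) * exp (t / 2) := by
      rw [← hNexp, ← exp_add]; congr 1; ring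
    have h3 : 2 * (R : ℝ) ≤ 4 * exp (t / 2) := by linarith
    calc 2 * (R : ℝ) * t ^ (1 / 25 : ℝ) ≤ 4 * exp (t / 2) * t ^ (1 / 25 : ℝ) :=
          mul_le_mul_of_nonneg_right h3 hu.le
      _ = exp (t / 2) * (8 * t ^ (1 / 25 : ℝ)) / 2 := by ring
      _ ≤ exp (t / 2) * exp (t / 2) / 2 := by
          apply div_le_div_of_nonneg_right _ (by norm_num)
          exact mul_le_mul_of_nonneg_left hc2 (exp_pos _).le
      _ = N / 2 := by rw [h2]
  have h2 : 3 * c * N * t ^ (1 / 25 : ℝ) ≤ N / 2 := by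
    have h3 : 6 * (c * t ^ (1 / 25 : ℝ)) ≤ 1 := by
      have e : c = (2 : ℝ) ^ (1 / 22 : ℝ) * (t ^ (1 / 22 : ℝ))⁻¹ := by
        rw [hc, div_rpow ht0.le (by norm_num), rpow_neg ht0.le, rpow_neg (by norm_num)]
        field_simp
      have e2 : t ^ (1 / 22 : ℝ) = t ^ (1 / 22 - 1 / 25 : ℝ) * t ^ (1 / 25 : ℝ) := by
        rw [← rpow_add ht0]; norm_num
      have hv : 0 < t ^ (1 / 22 - 1 / 25 : ℝ) := by positivity
      rw [e, e2]
      calc 6 * ((2 : ℝ) ^ (1 / 22 : ℝ) * (t ^ (1 / 22 - 1 / 25 : ℝ) * t ^ (1 / 25 : ℝ))⁻¹ *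
            t ^ (1 / 25 : ℝ)) = 6 * (2 : ℝ) ^ (1 / 22 : ℝ) / t ^ (1 / 22 - 1 / 25 : ℝ) := by
            field_simp
        _ ≤ 1 := by rw [div_le_one hv]; exact hc1
    calc 3 * c * N * t ^ (1 / 25 : ℝ) = N / 2 * (6 * (c * t ^ (1 / 25 : ℝ))) := by ring
      _ ≤ N / 2 * 1 := mul_le_mul_of_nonneg_left h3 (by positivity)
      _ = N / 2 := mul_one _
  have : (2 * (R : ℝ) + 3 * c * N) * t ^ (1 / 25 : ℝ) =
      2 * (R : ℝ) * t ^ (1 / 25 : ℝ) + 3 * c * N * t ^ (1 / 25 : ℝ) := by ring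
  linarith

end NSC
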