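import Pool.Agent.helper37.NS.Bad

/-! Lower bound for the number of residue classes modulo the primorial for which `n ^ 2 + 1` has
no small prime factor, and for the number of such `n` in an interval. -/

namespace NSC

open Finset Real

/-- no prime of `S` divides `n ^ 2 + 1` -/
def Good (S : Finset ℕ) (n : ℕ) : Prop := ∀ p ∈ S, ¬ p ∣ n ^ 2 + 1

instance (S : Finset ℕ) : DecidablePred (Good S) := fun n =>
  inferInstanceAs (Decidable (∀ p ∈ S, ¬ p ∣ n ^ 2 + 1))

theorem exp_neg_le {p : ℕ} (hp : p.Prime) (hp2 : p ≠ 2) :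
    (p : ℝ) * exp (-(4 / p)) ≤ p - 2 := by
  have hp0 : (0 : ℝ) < p := by exact_mod_cast hp.pos
  have hp3 : 3 ≤ p := by have := hp.two_le; omega
  rcases eq_or_lt_of_le hp3 with h | h
  · rw [← h]
    push_cast
    have h1 : exp (4 / 3 : ℝ) ≥ 3 := by
      have h2 : (exp 1 : ℝ) > 2.7182818283 := exp_one_gt_d9
      have h3 : exp (4 / 3 : ℝ) = exp 1 * exp (1 / 3) := by rw [← exp_add]; norm_num
      have h4 : (1 : ℝ) / 3 + 1 ≤ exp (1 / 3) := add_one_le_exp _
      rw [h3]
      nlinarith
    rw [exp_neg]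
    have h5 : (exp (4 / 3 : ℝ))⁻¹ ≤ 3⁻¹ := inv_anti₀ (by norm_num) h1
    linarith
  · have hp4 : (4 : ℝ) ≤ p := by exact_mod_cast h
    have h1 : (4 : ℝ) / p + 1 ≤ exp (4 / p) := add_one_le_exp _
    have h2 : exp (-(4 / p : ℝ)) ≤ 1 / (4 / p + 1) := by
      rw [exp_neg, one_div]
      exact inv_anti₀ (by positivity) h1
    calc (p : ℝ) * exp (-(4 / p)) ≤ p * (1 / (4 / p + 1)) :=
          mul_le_mul_of_nonneg_left h2 hp0.le
      _ = p * p / (4 + p) := by field_simp
      _ ≤ p - 2 := by
          rw [div_le_iff₀ (by positivity)]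
          nlinarith

/-- the number of admissible translates -/
theorem card_translate_ge {p P r : ℕ} (hp : p.Prime) (hP : P.Coprime p) :
    (p : ℝ) * exp (-(4 / p)) ≤
      (((range p).filter (fun j => ¬ p ∣ (r + j * P) ^ 2 + 1)).card : ℝ) := by
  classical
  set B := (range p).filter (fun j => p ∣ (r + j * P) ^ 2 + 1) with hB
  have hcompl : ((range p).filter (fun j => ¬ p ∣ (r + j * P) ^ 2 + 1)).card + B.card = p := by
    have h0 : ((range p).filter (fun j => ¬ p ∣ (r + j * P) ^ 2 + 1)) = range p \ B := by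
      rw [hB, filter_not]
    have h1 : B ⊆ range p := filter_subset _ _
    rw [h0, card_sdiff_of_subset h1, card_range]
    have := card_le_card h1
    rw [card_range] at this
    omega
  have hdiff : ∀ j ∈ range p, ∀ j' ∈ range p, j ≠ j' → ¬ (p : ℤ) ∣ ((r + j * P : ℕ) : ℤ) - ((r + j' * P : ℕ) : ℤ) := by
    intro j hj j' hj' hne hd
    rw [mem_range] at hj hj'
    have e : ((r + j * P : ℕ) : ℤ) - ((r + j' * P : ℕ) : ℤ) = ((j : ℤ) - j') * P := by
      push_cast; ring
    rw [e] at hd
    have hcop : IsCoprime (p : ℤ) (P : ℤ) := (Nat.isCoprime_iff_coprime.2 hP).symm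
    have h1 := hcop.dvd_of_dvd_mul_right hd
    have h2 : j' ≡ j [MOD p] := Nat.modEq_iff_dvd.2 h1
    rw [Nat.ModEq, Nat.mod_eq_of_lt hj, Nat.mod_eq_of_lt hj'] at h2
    exact hne h2.symm
  by_cases hp2 : p = 2
  · subst hp2
    have hB1 : B.card ≤ 1 := by
      rw [card_le_one]
      intro a ha b hb
      rw [hB, mem_filter] at ha hb
      by_contra hne
      apply hdiff a ha.1 b hb.1 hne
      have h1 : ¬ 2 ∣ (r + a * P) := by
        intro h
        have h5 : 2 ∣ (r + a * P) ^ 2 := dvd_pow h (by norm_num)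
        have h6 : 2 ∣ 1 := (Nat.dvd_add_right h5).1 ha.2
        omega
      have h2 : ¬ 2 ∣ (r + b * P) := by
        intro h
        have h5 : 2 ∣ (r + b * P) ^ 2 := dvd_pow h (by norm_num)
        have h6 : 2 ∣ 1 := (Nat.dvd_add_right h5).1 hb.2
        omega
      omega
    have h3 : (1 : ℝ) ≤ (((range 2).filter (fun j => ¬ 2 ∣ (r + j * P) ^ 2 + 1)).card : ℝ) := by
      exact_mod_cast (by omega : 1 ≤ ((range 2).filter (fun j => ¬ 2 ∣ (r + j * P) ^ 2 + 1)).card)
    refine le_trans ?_ h3
    push_cast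
    have h1 : (2 : ℝ) + 1 ≤ exp 2 := add_one_le_exp 2
    have e : -(4 / 2 : ℝ) = -2 := by norm_num
    rw [e, exp_neg]
    have h5 : (exp (2 : ℝ))⁻¹ ≤ 3⁻¹ := inv_anti₀ (by norm_num) (by linarith)
    linarith
  · have hB2 : B.card ≤ 2 := by
      by_contra hcon
      have h3 : 2 < B.card := by omega
      obtain ⟨a, b, c, ha, hb, hc, hab, hac, hbc⟩ := (two_lt_card_iff).1 h3
      rw [hB, mem_filter] at ha hb hc
      have key : ∀ x y : ℕ, x ∈ range p → y ∈ range p → x ≠ y → p ∣ (r + x * P) ^ 2 + 1 →
          p ∣ (r + y * P) ^ 2 + 1 →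
          (p : ℤ) ∣ ((r + x * P : ℕ) : ℤ) + ((r + y * P : ℕ) : ℤ) := by
        intro x y hx hy hne h1 h2
        have := split_root (q := p) (j := 1) hp hp2 one_pos (by simpa using h1) (by simpa using h2)
        rw [pow_one] at this
        rcases this with h | h
        · exact absurd h (hdiff x hx y hy hne)
        · exact h
      have k1 := key a b ha.1 hb.1 hab ha.2 hb.2
      have k2 := key a c ha.1 hc.1 hac ha.2 hc.2
      apply hdiff b hb.1 c hc.1 hbc
      have := dvd_sub k1 k2
      have e : ((r + a * P : ℕ) : ℤ) + ((r + b * P : ℕ) : ℤ) -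
        (((r + a * P : ℕ) : ℤ) + ((r + c * P : ℕ) : ℤ)) =
        ((r + b * P : ℕ) : ℤ) - ((r + c * P : ℕ) : ℤ) := by ring
      rwa [e] at this
    refine (exp_neg_le hp hp2).trans ?_
    have : (((range p).filter (fun j => ¬ p ∣ (r + j * P) ^ 2 + 1)).card : ℝ) + B.card = p := by
      exact_mod_cast hcompl
    have h5 : (B.card : ℝ) ≤ 2 := by exact_mod_cast hB2
    linarith

/-- number of good classes -/
theorem card_good_ge (S : Finset ℕ) (hS : ∀ p ∈ S, p.Prime) :
    ((∏ p ∈ S, p : ℕ) : ℝ) * exp (-(4 * ∑ p ∈ S, (1 : ℝ) / p)) ≤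
      (((range (∏ p ∈ S, p)).filter (Good S)).card : ℝ) := by
  classical
  induction S using Finset.induction_on with
  | empty => simp [Good]
  | insert p S hpS ih =>
    have hp : p.Prime := hS p (mem_insert_self _ _)
    have hS' : ∀ q ∈ S, q.Prime := fun q hq => hS q (mem_insert_of_mem hq)
    have ih' := ih hS'
    set P := ∏ q ∈ S, q with hPdef
    have hPpos : 0 < P := prod_pos fun q hq => (hS' q hq).pos
    have hcop : P.Coprime p := by
      rw [hPdef]
      apply Nat.Coprime.prod_left
      intro q hq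
      exact (Nat.coprime_primes (hS' q hq) hp).2 (by rintro rfl; exact hpS hq)
    rw [prod_insert hpS, sum_insert hpS, ← hPdef]
    set T := ((range P).filter (Good S)).sigma
      (fun r => (range p).filter (fun j => ¬ p ∣ (r + j * P) ^ 2 + 1)) with hT
    have hcard : T.card ≤ ((range (p * P)).filter (Good (insert p S))).card := by
      apply card_le_card_of_injOn (fun x => x.1 + x.2 * P)
      · rintro ⟨r, j⟩ hx
        have hx' : (⟨r, j⟩ : Σ _ : ℕ, ℕ) ∈ T := hx
        rw [hT, mem_sigma, mem_filter, mem_range, mem_filter, mem_range] at hx'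
        simp only at hx'
        obtain ⟨⟨hr, hgood⟩, hj, hjp⟩ := hx'
        simp only [coe_filter, mem_range, Set.mem_ofPred_eq]
        refine ⟨?_, ?_⟩
        · calc r + j * P < P + j * P := by omega
            _ = (j + 1) * P := by ring
            _ ≤ p * P := Nat.mul_le_mul_right _ (by omega)
        · intro q hq
          rw [mem_insert] at hq
          rcases hq with rfl | hq
          · exact hjp
          · intro hdvd
            apply hgood q hq
            have hqP : q ∣ P := dvd_prod_of_mem _ hq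
            have h5 : (r + j * P) ^ 2 + 1 ≡ r ^ 2 + 1 [MOD q] := by
              apply Nat.ModEq.add_right
              apply Nat.ModEq.pow
              have : j * P ≡ 0 [MOD q] := (Nat.modEq_zero_iff_dvd).2 (hqP.mul_left j)
              simpa using (Nat.ModEq.refl r).add this
            exact (Nat.modEq_zero_iff_dvd.1 (h5.symm.trans (Nat.modEq_zero_iff_dvd.2 hdvd)))
      · rintro ⟨r, j⟩ hx ⟨r', j'⟩ hy hxy
        have hx' : (⟨r, j⟩ : Σ _ : ℕ, ℕ) ∈ T := hx
        have hy' : (⟨r', j'⟩ : Σ _ : ℕ, ℕ) ∈ T := hy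
        rw [hT, mem_sigma, mem_filter, mem_range] at hx' hy'
        simp only at hx' hy' hxy
        have h1 : (r + j * P) % P = (r' + j' * P) % P := by rw [hxy]
        rw [Nat.add_mul_mod_self_right, Nat.add_mul_mod_self_right,
          Nat.mod_eq_of_lt hx'.1.1, Nat.mod_eq_of_lt hy'.1.1] at h1
        subst h1
        have h2 : j * P = j' * P := by omega
        have h3 := Nat.eq_of_mul_eq_mul_right hPpos h2
        subst h3
        rfl
    have hTcard : ((p : ℝ) * exp (-(4 / p))) * (((range P).filter (Good S)).card : ℝ) ≤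
        (T.card : ℝ) := by
      rw [hT, card_sigma]
      push_cast
      calc ((p : ℝ) * exp (-(4 / p))) * (((range P).filter (Good S)).card : ℝ)
          = ∑ r ∈ (range P).filter (Good S), ((p : ℝ) * exp (-(4 / p))) := by
            rw [sum_const, nsmul_eq_mul, mul_comm]
        _ ≤ _ := by
            apply sum_le_sum
            intro r _
            exact card_translate_ge hp hcop
    have hp0 : (0 : ℝ) < p := by exact_mod_cast hp.pos
    calc ((p * P : ℕ) : ℝ) * exp (-(4 * (1 / (p : ℝ) + ∑ q ∈ S, (1 : ℝ) / q)))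
        = ((p : ℝ) * exp (-(4 / p))) * ((P : ℝ) * exp (-(4 * ∑ q ∈ S, (1 : ℝ) / q))) := by
          have e : -(4 * (1 / (p : ℝ) + ∑ q ∈ S, (1 : ℝ) / q)) =
            -(4 / p) + -(4 * ∑ q ∈ S, (1 : ℝ) / q) := by ring
          rw [e, exp_add]; push_cast; ring
      _ ≤ ((p : ℝ) * exp (-(4 / p))) * (((range P).filter (Good S)).card : ℝ) := by
          apply mul_le_mul_of_nonneg_left ih' (by positivity)
      _ ≤ (T.card : ℝ) := hTcard
      _ ≤ _ := by exact_mod_cast hcard

theorem good_periodic (S : Finset ℕ) : Function.Periodic (Good S) (∏ p ∈ S, p) := by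
  intro n
  apply propext
  have key : ∀ q ∈ S, (q ∣ (n + ∏ p ∈ S, p) ^ 2 + 1 ↔ q ∣ n ^ 2 + 1) := by
    intro q hq
    have hqP : q ∣ ∏ p ∈ S, p := dvd_prod_of_mem _ hq
    have h5 : (n + ∏ p ∈ S, p) ^ 2 + 1 ≡ n ^ 2 + 1 [MOD q] := by
      apply Nat.ModEq.add_right
      apply Nat.ModEq.pow
      have : (∏ p ∈ S, p) ≡ 0 [MOD q] := (Nat.modEq_zero_iff_dvd).2 hqP
      simpa using (Nat.ModEq.refl n).add this
    constructor
    · intro h
      exact (Nat.modEq_zero_iff_dvd.1 (h5.symm.trans (Nat.modEq_zero_iff_dvd.2 h)))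
    · intro h
      exact (Nat.modEq_zero_iff_dvd.1 (h5.trans (Nat.modEq_zero_iff_dvd.2 h)))
  constructor
  · intro h q hq hd
    exact h q hq ((key q hq).2 hd)
  · intro h q hq hd
    exact h q hq ((key q hq).1 hd)

/-- lower bound in an interval -/
theorem card_good_interval_ge (S : Finset ℕ) (hS : ∀ p ∈ S, p.Prime) (u H : ℕ) :
    (H / (∏ p ∈ S, p)) * ((range (∏ p ∈ S, p)).filter (Good S)).card ≤
      ((Ioc u (u + H)).filter (Good S)).card := by
  classical
  set P := ∏ p ∈ S, p with hP
  have hPpos : 0 < P := prod_pos fun q hq => (hS q hq).pos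
  have key : ∀ k : ℕ, k * ((range P).filter (Good S)).card ≤
      ((Ico (u + 1) (u + 1 + k * P)).filter (Good S)).card := by
    intro k
    induction k with
    | zero => simp
    | succ k ih =>
      have hsplit : Ico (u + 1) (u + 1 + (k + 1) * P) =
          Ico (u + 1) (u + 1 + k * P) ∪ Ico (u + 1 + k * P) (u + 1 + k * P + P) := by
        rw [Ico_union_Ico_eq_Ico (by omega) (by omega)]
        congr 1
        ring
      rw [hsplit, filter_union, card_union_of_disjoint]
      · have hper := good_periodic S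
        rw [← hP] at hper
        have h2 : ((Ico (u + 1 + k * P) (u + 1 + k * P + P)).filter (Good S)).card =
            ((range P).filter (Good S)).card := by
          rw [Nat.filter_Ico_card_eq_of_periodic _ _ _ hper,
            Nat.count_eq_card_filter_range]
        rw [h2, Nat.succ_mul]
        omega
      · apply disjoint_filter_filter
        rw [disjoint_left]
        intro x hx hx'
        rw [mem_Ico] at hx hx'
        omega
  refine (key (H / P)).trans ?_
  apply card_le_card
  apply filter_subset_filter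
  intro x hx
  rw [mem_Ico] at hx
  rw [mem_Ioc]
  have := Nat.div_mul_le_self H P
  omega

/-- upper bound for the good `n` with `q ∣ n ^ 2 + 1` in an interval -/
theorem card_good_dvd_le (S : Finset ℕ) (hS : ∀ p ∈ S, p.Prime) (u H q : ℕ) (hq : q.Prime)
    (hq2 : q ≠ 2) (hqS : q ∉ S) :
    (((Ioc u (u + H)).filter (fun n => Good S n ∧ q ∣ n ^ 2 + 1)).card : ℝ) ≤
      (((range (∏ p ∈ S, p)).filter (Good S)).card : ℝ) *
        (2 * (H / (((∏ p ∈ S, p : ℕ) : ℝ) * q) + 1)) := by
  classical
  set P := ∏ p ∈ S, p with hP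
  have hPpos : 0 < P := prod_pos fun q hq => (hS q hq).pos
  have hcop : P.Coprime q := by
    rw [hP]
    apply Nat.Coprime.prod_left
    intro r hr
    exact (Nat.coprime_primes (hS r hr) hq).2 (by rintro rfl; exact hqS hr)
  set T := (Ioc u (u + H)).filter (fun n => Good S n ∧ q ∣ n ^ 2 + 1) with hT
  have hmaps : ∀ n ∈ T, n % P ∈ (range P).filter (Good S) := by
    intro n hn
    rw [hT, mem_filter] at hn
    rw [mem_filter, mem_range]
    refine ⟨Nat.mod_lt _ hPpos, ?_⟩
    have := (good_periodic S).map_mod_nat n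
    rw [← hP] at this
    rw [this]
    exact hn.2.1
  rw [card_eq_sum_card_fiberwise (f := fun n => n % P) hmaps]
  push_cast
  calc (∑ r ∈ (range P).filter (Good S), (((T.filter (fun n => n % P = r)).card : ℕ) : ℝ))
      ≤ ∑ r ∈ (range P).filter (Good S), (2 * ((H : ℝ) / ((P : ℝ) * q) + 1)) := by
        apply sum_le_sum
        intro r _
        have := two_classes (T.filter (fun n => n % P = r)) u H P q 1 hPpos hq hq2 one_pos hcop
          ?_ ?_ ?_
        · simpa using this
        · intro n hn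
          rw [mem_filter, hT, mem_filter, mem_Ioc] at hn
          exact hn.1.1
        · intro x hx y hy
          rw [mem_filter] at hx hy
          have : y ≡ x [MOD P] := by rw [Nat.ModEq, hx.2, hy.2]
          exact Nat.modEq_iff_dvd.1 this
        · intro n hn
          rw [mem_filter, hT, mem_filter] at hn
          simpa using hn.1.2.2
    _ = _ := by rw [sum_const, nsmul_eq_mul]

end NSC
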