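import Pool.Agent.helper37.NS.Basic

/-! The number `rho m` of roots of `-1` modulo odd `m`: linear bound for its partial sums
(Thue's lemma), submultiplicativity, and the count of `n` with `n ^ 2 + 1 = m` modulo `q m`. -/

namespace NSC

open Finset

/-- the roots of `-1` modulo `m` (for odd `m`) -/
def roots (m : ℕ) : Finset ℕ := (range m).filter (fun v => Odd m ∧ m ∣ v ^ 2 + 1)

/-- their number -/
def rho (m : ℕ) : ℕ := (roots m).card

theorem mem_roots {m v : ℕ} : v ∈ roots m ↔ v < m ∧ Odd m ∧ m ∣ v ^ 2 + 1 := by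
  simp [roots]

/-- Thue: representation of `m` as a sum of two squares attached to a root of `-1` -/
theorem thue {m v : ℕ} (hv : v ∈ roots m) :
    ∃ a b : ℤ, a ^ 2 + b ^ 2 = m ∧ (m : ℤ) ∣ a - v * b := by
  obtain ⟨hvm, hodd, hdvd⟩ := mem_roots.1 hv
  have hm : 0 < m := by omega
  by_cases hm1 : m = 1
  · subst hm1
    exact ⟨1, 0, by norm_num, by simp⟩
  obtain ⟨r, hr0, hr1⟩ : ∃ r : ℕ, r ^ 2 ≤ m ∧ m < (r + 1) ^ 2 :=
    ⟨Nat.sqrt m, Nat.sqrt_le' m, Nat.lt_succ_sqrt' m⟩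
  have hcard : (range m).card < (range (r + 1) ×ˢ range (r + 1)).card := by
    rw [card_range, card_product, card_range]
    nlinarith
  obtain ⟨x, hx, y, hy, hxy, hf⟩ := exists_ne_map_eq_of_card_lt_of_maps_to hcard
    (f := fun x : ℕ × ℕ => (x.1 + v * x.2) % m)
    (by intro x _; simp only [coe_range, Set.mem_Iio]; exact Nat.mod_lt _ hm)
  rw [mem_product, mem_range, mem_range] at hx hy
  have hmod : (m : ℤ) ∣ ((x.1 : ℤ) - y.1) - v * ((y.2 : ℤ) - x.2) := by
    have h1 : (y.1 + v * y.2) ≡ (x.1 + v * x.2) [MOD m] := hf.symm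
    have h2 := (Nat.modEq_iff_dvd.1 h1)
    push_cast at h2
    have e : ((x.1 : ℤ) + v * x.2) - (y.1 + v * y.2) = ((x.1 : ℤ) - y.1) - v * ((y.2 : ℤ) - x.2) := by
      ring
    rwa [e] at h2
  set a : ℤ := (x.1 : ℤ) - y.1 with ha
  set b : ℤ := (y.2 : ℤ) - x.2 with hb
  have ha1 : |a| ≤ r := by
    rw [abs_le]; constructor <;> · rw [ha]; omega
  have hb1 : |b| ≤ r := by
    rw [abs_le]; constructor <;> · rw [hb]; omega
  have ha2 : a ^ 2 ≤ (r : ℤ) ^ 2 := by
    rw [← sq_abs a]; exact pow_le_pow_left₀ (abs_nonneg a) ha1 2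
  have hb2 : b ^ 2 ≤ (r : ℤ) ^ 2 := by
    rw [← sq_abs b]; exact pow_le_pow_left₀ (abs_nonneg b) hb1 2
  have hr0' : (r : ℤ) ^ 2 ≤ m := by exact_mod_cast hr0
  have hdvd' : (m : ℤ) ∣ (v : ℤ) ^ 2 + 1 := by exact_mod_cast hdvd
  have hsum : (m : ℤ) ∣ a ^ 2 + b ^ 2 := by
    have e : a ^ 2 + b ^ 2 = (a - v * b) * (a + v * b) + ((v : ℤ) ^ 2 + 1) * b ^ 2 := by ring
    rw [e]
    exact dvd_add (hmod.mul_right _) (hdvd'.mul_right _)
  have hne : 0 < a ^ 2 + b ^ 2 := by
    by_contra hcon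
    have h1 : a = 0 := by nlinarith [sq_nonneg a, sq_nonneg b]
    have h2 : b = 0 := by nlinarith [sq_nonneg a, sq_nonneg b]
    apply hxy
    ext
    · rw [ha] at h1; omega
    · rw [hb] at h2; omega
  obtain ⟨k, hk⟩ := hsum
  have hmpos : (0 : ℤ) < m := by exact_mod_cast hm
  have hk0 : 0 < k := by
    by_contra hcon
    have : (m : ℤ) * k ≤ 0 := mul_nonpos_of_nonneg_of_nonpos hmpos.le (by omega)
    omega
  have hk2 : k ≤ 2 := by
    by_contra hcon
    have h3 : 3 ≤ k := by omega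
    nlinarith
  have hk12 : k = 1 ∨ k = 2 := by omega
  rcases hk12 with h | h
  · exact ⟨a, b, by rw [hk, h, mul_one], hmod⟩
  · exfalso
    rw [h] at hk
    have hA : a ^ 2 = (r : ℤ) ^ 2 := by nlinarith
    have hB : b ^ 2 = (r : ℤ) ^ 2 := by nlinarith
    have hM : (m : ℤ) = (r : ℤ) ^ 2 := by nlinarith
    have hrpos : (0 : ℤ) < r := by
      rcases Nat.eq_zero_or_pos r with h0 | h0
      · subst h0; simp at hM; omega
      · exact_mod_cast h0
    have hab : a = b ∨ a = -b := by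
      have : (a - b) * (a + b) = 0 := by ring_nf; linarith
      rcases mul_eq_zero.1 this with h0 | h0
      · left; linarith
      · right; linarith
    have har : a = r ∨ a = -r := by
      have : (a - r) * (a + r) = 0 := by ring_nf; linarith
      rcases mul_eq_zero.1 this with h0 | h0
      · left; linarith
      · right; linarith
    have hrdvd : (r : ℤ) ∣ (v : ℤ) ^ 2 - 1 := by
      have h5 : (r : ℤ) * r ∣ (r : ℤ) * ((v : ℤ) ^ 2 - 1) := by
        have h6 : (m : ℤ) ∣ (a - v * b) * (a + v * b) := hmod.mul_right _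
        have h7 : (m : ℤ) ∣ a * ((v : ℤ) ^ 2 - 1) := by
          rcases hab with h0 | h0
          · have h8 : (m : ℤ) ∣ (a - v * b) * (-(v + 1)) := hmod.mul_right _
            have e : (a - v * b) * (-(v + 1)) = a * ((v : ℤ) ^ 2 - 1) := by rw [← h0]; ring
            rwa [e] at h8
          · have h8 : (m : ℤ) ∣ (a - v * b) * (v - 1) := hmod.mul_right _
            have e : (a - v * b) * (v - 1) = a * ((v : ℤ) ^ 2 - 1) := by
              have : b = -a := by linarith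
              rw [this]; ring
            rwa [e] at h8
        rw [hM, sq] at h7
        rcases har with h0 | h0
        · rwa [h0] at h7
        · rw [h0, neg_mul] at h7
          exact (dvd_neg.1 h7)
      exact (mul_dvd_mul_iff_left hrpos.ne').1 h5
    have hr2 : (r : ℤ) ∣ 2 := by
      have h8 : (r : ℤ) ∣ (v : ℤ) ^ 2 + 1 := by
        refine dvd_trans ?_ hdvd'
        rw [hM, sq]; exact dvd_mul_right _ _
      have := dvd_sub h8 hrdvd
      have e : (v : ℤ) ^ 2 + 1 - ((v : ℤ) ^ 2 - 1) = 2 := by ring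
      rwa [e] at this
    have hr2' : r ∣ 2 := by exact_mod_cast hr2
    have hM' : m = r ^ 2 := by exact_mod_cast hM
    have hrodd : Odd r := by
      rw [hM'] at hodd
      exact (Nat.odd_pow_iff (by norm_num)).1 hodd
    rcases (Nat.dvd_prime Nat.prime_two).1 hr2' with h0 | h0
    · rw [h0] at hM'; simp at hM'; exact hm1 hM'
    · rw [h0] at hrodd; exact absurd hrodd (by decide)

/-- the representation determines the root -/
theorem thue_inj {m v v' : ℕ} (hv : v ∈ roots m) (hv' : v' ∈ roots m) {a b : ℤ}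
    (hab : a ^ 2 + b ^ 2 = m) (h1 : (m : ℤ) ∣ a - v * b) (h2 : (m : ℤ) ∣ a - v' * b) :
    v = v' := by
  obtain ⟨hvm, hodd, hdvd⟩ := mem_roots.1 hv
  obtain ⟨hvm', -, -⟩ := mem_roots.1 hv'
  have hm : 0 < m := by omega
  have hmpos : (0 : ℤ) < m := by exact_mod_cast hm
  have hdvd' : (m : ℤ) ∣ (v : ℤ) ^ 2 + 1 := by exact_mod_cast hdvd
  have hcop : IsCoprime (m : ℤ) b := by
    rw [Int.isCoprime_iff_gcd_eq_one]
    by_contra hg
    obtain ⟨r, hr, hrg⟩ := Nat.exists_prime_and_dvd hg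
    have hrm : (r : ℤ) ∣ m := (Int.natCast_dvd_natCast.2 hrg).trans (Int.gcd_dvd_left ..)
    have hrb : (r : ℤ) ∣ b := (Int.natCast_dvd_natCast.2 hrg).trans (Int.gcd_dvd_right ..)
    have hra : (r : ℤ) ∣ a := by
      have h3 : (r : ℤ) ∣ a - v * b := hrm.trans h1
      have h4 : (r : ℤ) ∣ v * b := hrb.mul_left _
      have := dvd_add h3 h4
      simpa using this
    have hrpos : (0 : ℤ) < r := by exact_mod_cast hr.pos
    obtain ⟨a1, ha1⟩ := hra
    obtain ⟨b1, hb1⟩ := hrb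
    obtain ⟨m1, hm1⟩ : (r : ℤ) ^ 2 ∣ m := by
      rw [← hab, ha1, hb1]
      exact ⟨a1 ^ 2 + b1 ^ 2, by ring⟩
    have hs : a1 ^ 2 + b1 ^ 2 = m1 := by
      have : (r : ℤ) ^ 2 * (a1 ^ 2 + b1 ^ 2) = (r : ℤ) ^ 2 * m1 := by
        rw [← hm1, ← hab, ha1, hb1]; ring
      exact mul_left_cancel₀ (pow_ne_zero 2 hrpos.ne') this
    have h5 : (r : ℤ) * m1 ∣ a1 - v * b1 := by
      have h6 : (r : ℤ) * ((r : ℤ) * m1) ∣ r * (a1 - v * b1) := by
        have e1 : (r : ℤ) * ((r : ℤ) * m1) = m := by rw [hm1]; ring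
        have e2 : (r : ℤ) * (a1 - v * b1) = a - v * b := by rw [ha1, hb1]; ring
        rw [e1, e2]; exact h1
      exact (mul_dvd_mul_iff_left hrpos.ne').1 h6
    have h7 : (r : ℤ) * m1 ∣ (v : ℤ) ^ 2 + 1 := by
      refine dvd_trans ⟨r, ?_⟩ hdvd'
      rw [hm1]; ring
    have h8 : (r : ℤ) * m1 ∣ a1 ^ 2 + b1 ^ 2 := by
      have e : a1 ^ 2 + b1 ^ 2 = (a1 - v * b1) * (a1 + v * b1) + ((v : ℤ) ^ 2 + 1) * b1 ^ 2 := by
        ring
      rw [e]
      exact dvd_add (h5.mul_right _) (h7.mul_right _)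
    rw [hs] at h8
    have hm1pos : 0 < m1 := by
      by_contra hcon
      have : (r : ℤ) ^ 2 * m1 ≤ 0 := mul_nonpos_of_nonneg_of_nonpos (by positivity) (by omega)
      omega
    have h9 := Int.le_of_dvd hm1pos h8
    have : (2 : ℤ) ≤ r := by exact_mod_cast hr.two_le
    nlinarith
  have h3 : (m : ℤ) ∣ ((v : ℤ) - v') * b := by
    have := dvd_sub h2 h1
    have e : a - v' * b - (a - v * b) = ((v : ℤ) - v') * b := by ring
    rwa [e] at this
  have h4 := hcop.dvd_of_dvd_mul_right h3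
  have h5 : v ≡ v' [MOD m] := by
    rw [Nat.modEq_iff_dvd]
    have := (dvd_neg.2 h4)
    have e : -((v : ℤ) - v') = v' - v := by ring
    rwa [e] at this
  have h6 := h5
  rw [Nat.ModEq, Nat.mod_eq_of_lt hvm, Nat.mod_eq_of_lt hvm'] at h6
  exact h6

/-- linear bound for the partial sums -/
theorem sum_rho_le (Y : ℕ) : (∑ m ∈ Icc 1 Y, rho m) ≤ 9 * Y := by
  classical
  rcases Nat.eq_zero_or_pos Y with hY | hY
  · subst hY; simp
  have hs : (∑ m ∈ Icc 1 Y, rho m) = ((Icc 1 Y).sigma roots).card := by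
    rw [card_sigma]; rfl
  rw [hs]
  set s : ℕ := Nat.sqrt Y with hsdef
  have hs2 : s ^ 2 ≤ Y := Nat.sqrt_le' Y
  have hs1 : 1 ≤ s := by
    have := Nat.sqrt_le_sqrt hY
    simpa using this
  have hch : ∀ x : (Σ _ : ℕ, ℕ), x ∈ (Icc 1 Y).sigma roots →
      ∃ ab : ℤ × ℤ, ab.1 ^ 2 + ab.2 ^ 2 = x.1 ∧ (x.1 : ℤ) ∣ ab.1 - x.2 * ab.2 := by
    intro x hx
    rw [mem_sigma] at hx
    obtain ⟨a, b, h1, h2⟩ := thue hx.2
    exact ⟨(a, b), h1, h2⟩
  choose! F hF using hch
  have hcard : ((Icc 1 Y).sigma roots).card ≤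
      ((Icc (-(s : ℤ)) s) ×ˢ (Icc (-(s : ℤ)) s)).card := by
    apply card_le_card_of_injOn F
    · intro x hx
      have hx' : x ∈ (Icc 1 Y).sigma roots := hx
      obtain ⟨h1, -⟩ := hF x hx'
      rw [mem_sigma, mem_Icc] at hx'
      have hxY : (x.1 : ℤ) ≤ Y := by exact_mod_cast hx'.1.2
      have hYs : (Y : ℤ) < ((s : ℤ) + 1) ^ 2 := by
        have := Nat.lt_succ_sqrt' Y
        exact_mod_cast this
      have bound : ∀ t u : ℤ, t ^ 2 + u ^ 2 = x.1 → t ∈ Icc (-(s : ℤ)) s := by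
        intro t u htu
        rw [mem_Icc, ← abs_le]
        by_contra hcon
        have h3 : (s : ℤ) + 1 ≤ |t| := by omega
        have h4 : ((s : ℤ) + 1) ^ 2 ≤ |t| ^ 2 := pow_le_pow_left₀ (by positivity) h3 2
        rw [sq_abs] at h4
        nlinarith [sq_nonneg u]
      rw [coe_product, Set.mem_prod]
      refine ⟨bound _ _ h1, bound _ (F x).1 ?_⟩
      rw [← h1]; ring
    · intro x hx y hy hxy
      have hx' : x ∈ (Icc 1 Y).sigma roots := hx
      have hy' : y ∈ (Icc 1 Y).sigma roots := hy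
      obtain ⟨h1, h2⟩ := hF x hx'
      obtain ⟨h3, h4⟩ := hF y hy'
      rw [hxy] at h1 h2
      have hm : x.1 = y.1 := by
        have : (x.1 : ℤ) = y.1 := by rw [← h1, ← h3]
        exact_mod_cast this
      rw [mem_sigma] at hx' hy'
      obtain ⟨m, v⟩ := x
      obtain ⟨m', v'⟩ := y
      simp only at hm
      subst hm
      simp only at h1 h2 h3 h4 hx' hy'
      have := thue_inj hx'.2 hy'.2 h1 h2 h4
      subst this
      rfl
  refine hcard.trans ?_
  rw [card_product, Int.card_Icc]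
  have e : ((s : ℤ) + 1 - -(s : ℤ)).toNat = 2 * s + 1 := by omega
  rw [e]
  nlinarith

end NSC
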