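import Pool.Agent.helper37.NS.Rho

namespace NSC

open Finset

theorem rho_mul_le {q m : ℕ} (hq : q.Prime) (hq2 : q ≠ 2) : rho (q * m) ≤ 2 * rho m := by
  classical
  rcases Nat.eq_zero_or_pos m with hm | hm
  · subst hm; simp [rho, roots]
  have hmaps : ∀ v ∈ roots (q * m), v % m ∈ roots m := by
    intro v hv
    obtain ⟨h1, h2, h3⟩ := mem_roots.1 hv
    refine mem_roots.2 ⟨Nat.mod_lt _ hm, ?_, ?_⟩
    · exact (Nat.odd_mul.1 h2).2
    · have h4 : m ∣ v ^ 2 + 1 := (Dvd.intro_left q rfl).trans h3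
      have h5 : (v % m) ^ 2 + 1 ≡ v ^ 2 + 1 [MOD m] :=
        ((Nat.mod_modEq v m).pow 2).add_right 1
      exact (Nat.modEq_zero_iff_dvd.1 (h5.trans (Nat.modEq_zero_iff_dvd.2 h4)))
  have hfib : ∀ w ∈ roots m, ((roots (q * m)).filter (fun v => v % m = w)).card ≤ 2 := by
    intro w hw
    by_contra hcon
    have h3 : 2 < ((roots (q * m)).filter (fun v => v % m = w)).card := by omega
    obtain ⟨a, b, c, ha, hb, hc, hab, hac, hbc⟩ := (two_lt_card_iff).1 h3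
    rw [mem_filter] at ha hb hc
    obtain ⟨ha, ha'⟩ := ha
    obtain ⟨hb, hb'⟩ := hb
    obtain ⟨hc, hc'⟩ := hc
    obtain ⟨a1, a2, a3⟩ := mem_roots.1 ha
    obtain ⟨b1, b2, b3⟩ := mem_roots.1 hb
    obtain ⟨c1, c2, c3⟩ := mem_roots.1 hc
    have hqm : Odd q := (Nat.odd_mul.1 a2).1
    -- two different elements: q divides the sum
    have key : ∀ x y : ℕ, x < q * m → y < q * m → q * m ∣ x ^ 2 + 1 → q * m ∣ y ^ 2 + 1 →
        x % m = y % m → x ≠ y → (q : ℤ) ∣ (x : ℤ) + y ∧ ¬ (q * m : ℤ) ∣ (x : ℤ) - y := by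
      intro x y hx hy hx3 hy3 hxy hne
      have hd : (m : ℤ) ∣ (x : ℤ) - y := by
        have : y ≡ x [MOD m] := hxy.symm
        exact (Nat.modEq_iff_dvd.1 this)
      have hnd : ¬ (q * m : ℤ) ∣ (x : ℤ) - y := by
        intro h
        have h' : y ≡ x [MOD q * m] := by
          rw [Nat.modEq_iff_dvd]; push_cast; exact h
        rw [Nat.ModEq, Nat.mod_eq_of_lt hx, Nat.mod_eq_of_lt hy] at h'
        exact hne h'.symm
      refine ⟨?_, hnd⟩
      obtain ⟨t, ht⟩ := hd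
      have h1 : (q * m : ℤ) ∣ ((x : ℤ) - y) * (x + y) := by
        have e : ((x : ℤ) - y) * (x + y) = ((x ^ 2 + 1 : ℕ) : ℤ) - ((y ^ 2 + 1 : ℕ) : ℤ) := by
          push_cast; ring
        rw [e]
        exact dvd_sub (by exact_mod_cast hx3) (by exact_mod_cast hy3)
      rw [ht, mul_assoc, mul_comm (q : ℤ) m] at h1
      have hm0 : (m : ℤ) ≠ 0 := by exact_mod_cast hm.ne'
      have h2 : (q : ℤ) ∣ t * (x + y) := (mul_dvd_mul_iff_left hm0).1 h1
      rcases (Nat.prime_iff_prime_int.1 hq).dvd_or_dvd h2 with h | h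
      · exfalso
        apply hnd
        rw [ht, mul_comm (q : ℤ) m]
        exact mul_dvd_mul_left _ h
      · exact h
    obtain ⟨k1, -⟩ := key a b a1 b1 a3 b3 (by rw [ha', hb']) hab
    obtain ⟨k2, -⟩ := key a c a1 c1 a3 c3 (by rw [ha', hc']) hac
    obtain ⟨k3, k4⟩ := key b c b1 c1 b3 c3 (by rw [hb', hc']) hbc
    have hqb : (q : ℤ) ∣ (b : ℤ) - c := by
      have := dvd_sub k1 k2
      have e : (a : ℤ) + b - (a + c) = b - c := by ring
      rwa [e] at this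
    exact not_dvd_both hq hq2 ((Dvd.intro m rfl).trans b3) hqb k3
  have := card_le_mul_card_image_of_maps_to (s := roots (q * m)) (t := roots m)
    (f := fun v => v % m) hmaps 2 hfib
  exact this

theorem sum_rho_div_eq (Y : ℕ) : (∑ m ∈ Icc 1 Y, (rho m : ℝ) / m) =
    (∑ m ∈ Icc 1 Y, (rho m : ℝ)) / (Y + 1) +
      ∑ j ∈ Icc 1 Y, (∑ m ∈ Icc 1 j, (rho m : ℝ)) / (j * (j + 1)) := by
  induction Y with
  | zero => simp
  | succ Y ih =>
    rw [sum_Icc_succ_top (by omega), sum_Icc_succ_top (by omega : 1 ≤ Y + 1), ih,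
      sum_Icc_succ_top (by omega : 1 ≤ Y + 1), sum_Icc_succ_top (by omega : 1 ≤ Y + 1)]
    push_cast
    have h1 : (Y : ℝ) + 1 ≠ 0 := by positivity
    have h2 : (Y : ℝ) + 1 + 1 ≠ 0 := by positivity
    field_simp
    ring

theorem sum_rho_div_le (Y : ℕ) : (∑ m ∈ Icc 1 Y, (rho m : ℝ) / m) ≤ 18 + 9 * Real.log (Y + 1) := by
  rw [sum_rho_div_eq]
  have hF : ∀ j : ℕ, (∑ m ∈ Icc 1 j, (rho m : ℝ)) ≤ 9 * j := by
    intro j; exact_mod_cast sum_rho_le j
  have h1 : (∑ m ∈ Icc 1 Y, (rho m : ℝ)) / (Y + 1) ≤ 9 := by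
    rw [div_le_iff₀ (by positivity)]
    linarith [hF Y]
  have h2 : (∑ j ∈ Icc 1 Y, (∑ m ∈ Icc 1 j, (rho m : ℝ)) / (j * (j + 1))) ≤
      ∑ j ∈ Icc 1 Y, 9 * (((j : ℝ) + 1)⁻¹) := by
    apply sum_le_sum
    intro j hj
    rw [mem_Icc] at hj
    have hj0 : (0 : ℝ) < j := by exact_mod_cast hj.1
    rw [div_le_iff₀ (by positivity)]
    have := hF j
    calc (∑ m ∈ Icc 1 j, (rho m : ℝ)) ≤ 9 * j := this
      _ = 9 * ((j : ℝ) + 1)⁻¹ * (j * (j + 1)) := by field_simp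
  have h3 : (∑ j ∈ Icc 1 Y, 9 * (((j : ℝ) + 1)⁻¹)) ≤ 9 * (1 + Real.log (Y + 1)) := by
    rw [← mul_sum]
    apply mul_le_mul_of_nonneg_left _ (by norm_num)
    have h4 := harmonic_le_one_add_log (Y + 1)
    rw [harmonic] at h4
    push_cast at h4
    rw [sum_range_succ'] at h4
    have h5 : ∀ Y : ℕ, (∑ j ∈ Icc 1 Y, ((j : ℝ) + 1)⁻¹) =
        ∑ k ∈ range Y, (((k : ℝ) + 1) + 1)⁻¹ := by
      intro Y
      induction Y with
      | zero => simp
      | succ n ih =>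
        rw [sum_Icc_succ_top (by omega), ih, sum_range_succ]
        push_cast
        rfl
    rw [h5]
    push_cast at h4
    have h6 : (0 : ℝ) ≤ ((0 : ℝ) + 1)⁻¹ := by norm_num
    linarith
  linarith

/-- the numbers `n ≤ X` with `m ∣ n ^ 2 + 1` and `n ^ 2 + 1 = m` modulo `q m` -/
theorem card_cofactor_le (X m q : ℕ) (hm : Odd m) (hq : q.Prime) (hq2 : q ≠ 2) (hqm : q ∣ m) :
    ((((Icc 1 X).filter (fun n : ℕ => m ∣ n ^ 2 + 1 ∧
      ((q * m : ℕ) : ℤ) ∣ ((n ^ 2 + 1 : ℕ) : ℤ) - m)).card : ℕ) : ℝ) ≤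
      rho m * (X / (q * m : ℝ) + 1) := by
  classical
  set T := (Icc 1 X).filter (fun n : ℕ => m ∣ n ^ 2 + 1 ∧
      ((q * m : ℕ) : ℤ) ∣ ((n ^ 2 + 1 : ℕ) : ℤ) - m) with hT
  have hmpos : 0 < m := hm.pos
  have hmaps : ∀ n ∈ T, n % m ∈ roots m := by
    intro n hn
    rw [hT, mem_filter] at hn
    refine mem_roots.2 ⟨Nat.mod_lt _ hmpos, hm, ?_⟩
    have h5 : (n % m) ^ 2 + 1 ≡ n ^ 2 + 1 [MOD m] :=
        ((Nat.mod_modEq n m).pow 2).add_right 1
    exact (Nat.modEq_zero_iff_dvd.1 (h5.trans (Nat.modEq_zero_iff_dvd.2 hn.2.1)))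
  have hcard := card_eq_sum_card_fiberwise (s := T) (t := roots m) (f := fun n => n % m) hmaps
  rw [hcard]
  push_cast
  have hfib : ∀ w ∈ roots m, (((T.filter (fun n => n % m = w)).card : ℕ) : ℝ) ≤
      X / (q * m : ℝ) + 1 := by
    intro w _
    have := card_le_of_dvd_sub (T.filter (fun n => n % m = w)) 0 X (q * m)
      (Nat.mul_pos hq.pos hmpos) ?_ ?_
    · push_cast at this; exact this
    · intro n hn
      rw [mem_filter, hT, mem_filter, mem_Icc] at hn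
      omega
    · intro x hx y hy
      rw [mem_filter, hT, mem_filter, mem_Icc] at hx hy
      obtain ⟨⟨-, hx1, hx2⟩, hx3⟩ := hx
      obtain ⟨⟨-, hy1, hy2⟩, hy3⟩ := hy
      have hd : (m : ℤ) ∣ (x : ℤ) - y := by
        have : y ≡ x [MOD m] := by rw [Nat.ModEq, hx3, hy3]
        exact (Nat.modEq_iff_dvd.1 this)
      obtain ⟨t, ht⟩ := hd
      have h1 : (q * m : ℤ) ∣ ((x : ℤ) - y) * (x + y) := by
        have := dvd_sub hx2 hy2
        have e : ((x ^ 2 + 1 : ℕ) : ℤ) - m - (((y ^ 2 + 1 : ℕ) : ℤ) - m) =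
          ((x : ℤ) - y) * (x + y) := by push_cast; ring
        rw [e] at this
        push_cast at this
        exact this
      rw [ht, mul_assoc, mul_comm (q : ℤ) m] at h1
      have hm0 : (m : ℤ) ≠ 0 := by exact_mod_cast hmpos.ne'
      have h2 : (q : ℤ) ∣ t * (x + y) := (mul_dvd_mul_iff_left hm0).1 h1
      push_cast
      rw [ht, mul_comm (q : ℤ) m]
      rcases (Nat.prime_iff_prime_int.1 hq).dvd_or_dvd h2 with h | h
      · exact mul_dvd_mul_left _ h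
      · exfalso
        have hqd : (q : ℤ) ∣ (x : ℤ) - y := by
          rw [ht]; exact (Int.natCast_dvd_natCast.2 hqm).mul_right _
        exact not_dvd_both hq hq2 (hqm.trans hx1) hqd h
  calc (∑ w ∈ roots m, (((T.filter (fun n => n % m = w)).card : ℕ) : ℝ))
      ≤ ∑ w ∈ roots m, (X / (q * m : ℝ) + 1) := sum_le_sum hfib
    _ = rho m * (X / (q * m : ℝ) + 1) := by
      rw [sum_const, nsmul_eq_mul]; rfl

end NSC
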