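import Pool.Agent.helper37.NS.Local
import Pool.Agent.helper37.NS.BadAsym

/-! Lower bound for the number of `n` in a short interval with `n ^ 2 + 1` free of small primes. -/

namespace NSC

open Finset Real Filter

/-- primes up to `z` -/
def pr (z : ℕ) : Finset ℕ := (Icc 1 z).filter Nat.Prime

theorem mem_pr {z p : ℕ} : p ∈ pr z ↔ p.Prime ∧ p ≤ z := by
  rw [pr, mem_filter, mem_Icc]
  constructor
  · rintro ⟨⟨_, h⟩, hp⟩; exact ⟨hp, h⟩
  · rintro ⟨hp, h⟩; exact ⟨⟨hp.pos, h⟩, hp⟩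

theorem pr_prime {z : ℕ} : ∀ p ∈ pr z, p.Prime := fun _ hp => (mem_pr.1 hp).1

theorem prod_pr_le (z : ℕ) : ∏ p ∈ pr z, p ≤ 4 ^ z := by
  refine le_trans (le_of_eq ?_) (primorial_le_four_pow z)
  rw [primorial]
  apply prod_congr _ (fun _ _ => rfl)
  ext p
  rw [mem_pr]
  simp [and_comm]

theorem rough_count_ge {z0 z1 : ℕ} (h2 : 2 ≤ z0) (u H : ℕ) :
    (((range (∏ p ∈ pr z0, p)).filter (Good (pr z0))).card : ℝ) *
      ((H : ℝ) / ((∏ p ∈ pr z0, p : ℕ) : ℝ) *
        (1 - 2 * ∑ q ∈ (Ioc z0 z1).filter Nat.Prime, (1 : ℝ) / q) - (1 + 2 * z1)) ≤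
    (((Ioc u (u + H)).filter (Rough z1)).card : ℝ) := by
  classical
  set S := pr z0 with hS
  set P := ∏ p ∈ S, p with hP
  set W := ((range P).filter (Good S)).card with hW
  set Q := (Ioc z0 z1).filter Nat.Prime with hQ
  have hSp : ∀ p ∈ S, p.Prime := pr_prime
  have hPpos : 0 < P := prod_pos fun q hq => (hSp q hq).pos
  have hP0 : (0 : ℝ) < P := by exact_mod_cast hPpos
  have hsub : (Ioc u (u + H)).filter (Good S) ⊆ (Ioc u (u + H)).filter (Rough z1) ∪
      Q.biUnion (fun q => (Ioc u (u + H)).filter (fun n => Good S n ∧ q ∣ n ^ 2 + 1)) := by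
    intro n hn
    rw [mem_filter] at hn
    rw [mem_union]
    by_cases h : Rough z1 n
    · left; rw [mem_filter]; exact ⟨hn.1, h⟩
    · right
      rw [Rough] at h
      push Not at h
      obtain ⟨q, hq, hqz, hqd⟩ := h
      rw [mem_biUnion]
      refine ⟨q, ?_, ?_⟩
      · rw [hQ, mem_filter, mem_Ioc]
        refine ⟨⟨?_, hqz⟩, hq⟩
        by_contra hcon
        exact hn.2 q (mem_pr.2 ⟨hq, by omega⟩) hqd
      · rw [mem_filter]; exact ⟨hn.1, hn.2, hqd⟩
  have hcard : (((Ioc u (u + H)).filter (Good S)).card : ℝ) ≤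
      (((Ioc u (u + H)).filter (Rough z1)).card : ℝ) +
      ∑ q ∈ Q, (((Ioc u (u + H)).filter (fun n => Good S n ∧ q ∣ n ^ 2 + 1)).card : ℝ) := by
    have h1 := (card_le_card hsub).trans (card_union_le _ _)
    have h3 : (Q.biUnion (fun q => (Ioc u (u + H)).filter (fun n => Good S n ∧ q ∣ n ^ 2 + 1))).card
      ≤ ∑ q ∈ Q, ((Ioc u (u + H)).filter (fun n => Good S n ∧ q ∣ n ^ 2 + 1)).card := card_biUnion_le
    have h4 := h1.trans (Nat.add_le_add_left h3 _)
    exact_mod_cast h4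
  have hlow : (((H / P : ℕ) : ℝ)) * W ≤ (((Ioc u (u + H)).filter (Good S)).card : ℝ) := by
    exact_mod_cast card_good_interval_ge S hSp u H
  have hfloor : (H : ℝ) / P - 1 ≤ ((H / P : ℕ) : ℝ) := by
    have h1 : H < (H / P + 1) * P := by
      rw [Nat.add_mul, one_mul]
      exact Nat.lt_div_mul_add hPpos
    have h2 : (H : ℝ) < (((H / P : ℕ) : ℝ) + 1) * P := by exact_mod_cast h1
    rw [← div_lt_iff₀ hP0] at h2
    linarith
  have hq : ∀ q ∈ Q, (((Ioc u (u + H)).filter (fun n => Good S n ∧ q ∣ n ^ 2 + 1)).card : ℝ) ≤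
      (W : ℝ) * (2 * (H / ((P : ℝ) * q) + 1)) := by
    intro q hq
    rw [hQ, mem_filter, mem_Ioc] at hq
    apply card_good_dvd_le S hSp u H q hq.2 (by omega)
    rw [mem_pr]
    omega
  have hsum : ∑ q ∈ Q, (((Ioc u (u + H)).filter (fun n => Good S n ∧ q ∣ n ^ 2 + 1)).card : ℝ) ≤
      (W : ℝ) * (2 * (H / P) * (∑ q ∈ Q, (1 : ℝ) / q) + 2 * z1) := by
    calc ∑ q ∈ Q, (((Ioc u (u + H)).filter (fun n => Good S n ∧ q ∣ n ^ 2 + 1)).card : ℝ)
        ≤ ∑ q ∈ Q, (W : ℝ) * (2 * (H / ((P : ℝ) * q) + 1)) := sum_le_sum hq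
      _ = (W : ℝ) * (2 * (H / P) * (∑ q ∈ Q, (1 : ℝ) / q) + 2 * Q.card) := by
          rw [← mul_sum]
          congr 1
          rw [mul_sum, ← mul_comm (Q.card : ℝ) 2, ← nsmul_eq_mul, ← sum_const, ← sum_add_distrib]
          apply sum_congr rfl
          intro q hq
          rw [hQ, mem_filter, mem_Ioc] at hq
          have hq0 : (0 : ℝ) < q := by exact_mod_cast hq.2.pos
          field_simp
      _ ≤ (W : ℝ) * (2 * (H / P) * (∑ q ∈ Q, (1 : ℝ) / q) + 2 * z1) := by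
          apply mul_le_mul_of_nonneg_left _ (by positivity)
          have h5 : Q.card ≤ z1 := by
            calc Q.card ≤ (Ioc z0 z1).card := card_filter_le _ _
              _ = z1 - z0 := Nat.card_Ioc _ _
              _ ≤ z1 := Nat.sub_le _ _
          have h6 : (Q.card : ℝ) ≤ z1 := by exact_mod_cast h5
          linarith
  have h7 : (W : ℝ) * ((H : ℝ) / P - 1) ≤ W * ((H / P : ℕ) : ℝ) :=
    mul_le_mul_of_nonneg_left hfloor (by positivity)
  have h8 : (W : ℝ) * ((H : ℝ) / P * (1 - 2 * ∑ q ∈ Q, (1 : ℝ) / q) - (1 + 2 * z1)) =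
      W * ((H : ℝ) / P - 1) - (W : ℝ) * (2 * (H / P) * (∑ q ∈ Q, (1 : ℝ) / q) + 2 * z1) := by ring
  rw [h8]
  linarith

/-- the conditions on `t = log X` -/
theorem asym_cond2 {δ : ℝ} (hδ : 0 < δ) : ∀ᶠ t : ℝ in atTop,
    24 / δ ≤ t ∧ δ / 4 * t ≤ t ^ (21 / 20 : ℝ) ∧
    4 * (1 / 20 * log t + log (32 / δ)) ≤ 1 / 4 * (log t - log (8 / δ)) ∧
    4 * (1 + 4 * t ^ 2) ≤ exp (δ * t / 2) ∧
    20 * √(2 * log t) + 20 + log 4 ≤ log t / 1000 ∧ log (δ / 4) ≤ log t ∧ 1 ≤ t := by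
  have h1 : ∀ᶠ t : ℝ in atTop, 24 / δ ≤ t := eventually_ge_atTop _
  have h1' : ∀ᶠ t : ℝ in atTop, 1 ≤ t := eventually_ge_atTop _
  have h2 : ∀ᶠ t : ℝ in atTop, δ / 4 * t ≤ t ^ (21 / 20 : ℝ) := by
    have := tendsto_rpow_atTop (by norm_num : (0 : ℝ) < 1 / 20)
    filter_upwards [this.eventually_ge_atTop (δ / 4), h1'] with t ht h16
    have hpos : (0 : ℝ) < t := by linarith
    have e : t ^ (21 / 20 : ℝ) = t ^ (1 / 20 : ℝ) * t := by
      nth_rw 3 [← rpow_one t]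
      rw [← rpow_add hpos]; norm_num
    rw [e]
    exact mul_le_mul_of_nonneg_right ht hpos.le
  have h3 : ∀ᶠ t : ℝ in atTop,
      4 * (1 / 20 * log t + log (32 / δ)) ≤ 1 / 4 * (log t - log (8 / δ)) := by
    filter_upwards [tendsto_log_atTop.eventually_ge_atTop
      (20 * (4 * log (32 / δ) + 1 / 4 * log (8 / δ)))] with t ht
    linarith
  have h4 : ∀ᶠ t : ℝ in atTop, 4 * (1 + 4 * t ^ 2) ≤ exp (δ * t / 2) := by
    have := (tendsto_exp_div_pow_atTop 2)
    have h3 : Tendsto (fun t : ℝ => exp (t * (δ / 2)) / (t * (δ / 2)) ^ 2) atTop atTop :=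
      this.comp (tendsto_id.atTop_mul_const (by positivity : (0 : ℝ) < δ / 2))
    filter_upwards [h3.eventually_ge_atTop (20 * (4 / δ ^ 2)), h1'] with t ht h16
    have hpos0 : (0 : ℝ) < t := by linarith
    have hpos : (0 : ℝ) < (t * (δ / 2)) ^ 2 := by positivity
    rw [le_div_iff₀ hpos] at ht
    have e : 20 * (4 / δ ^ 2) * (t * (δ / 2)) ^ 2 = 20 * t ^ 2 := by field_simp; norm_num
    have e2 : t * (δ / 2) = δ * t / 2 := by ring
    rw [e, e2] at ht
    have : 1 ≤ t ^ 2 := one_le_pow₀ h16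
    linarith
  have h5 : ∀ᶠ t : ℝ in atTop, 20 * √(2 * log t) + 20 + log 4 ≤ log t / 1000 := by
    filter_upwards [tendsto_log_atTop.eventually_ge_atTop (20000000000 : ℝ)] with t ht
    have hl4 : log 4 ≤ 2 := by
      have : log 4 = 2 * log 2 := by
        rw [show (4 : ℝ) = 2 ^ 2 by norm_num, log_pow]; norm_num
      have := log_two_lt_d9
      linarith
    have h6 : √(2 * log t) ≤ 1 / 50000 * log t := by
      rw [Real.sqrt_le_left (by positivity)]
      nlinarith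
    linarith
  have h6 : ∀ᶠ t : ℝ in atTop, log (δ / 4) ≤ log t := tendsto_log_atTop.eventually_ge_atTop _
  filter_upwards [h1, h2, h3, h4, h5, h6, h1'] with t a b c d e f g
  exact ⟨a, b, c, d, e, f, g⟩

theorem rough_lb {δ : ℝ} (hδ : 0 < δ) : ∀ᶠ X : ℕ in atTop, ∀ u H : ℕ, (X : ℝ) ^ δ ≤ H →
    (H : ℝ) * (log (X : ℝ)) ^ (-(1 / 1000) : ℝ) ≤
      (((Ioc u (u + H)).filter (Rough (lev X))).card : ℝ) := by
  filter_upwards [tendsto_log_nat.eventually (asym_cond2 hδ), eventually_ge_atTop 3] with X hX hX3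
  intro u H hH
  set t := log (X : ℝ) with ht
  obtain ⟨hc1, hc2, hc3, hc4, hc5, hc6, hc7⟩ := hX
  have ht0 : 0 < t := by linarith
  have hX0 : (0 : ℝ) < X := by positivity
  have hXexp : exp t = X := by rw [ht]; exact exp_log hX0
  set z1 := lev X with hz1
  have hz1a : t ^ (21 / 20 : ℝ) ≤ z1 := Nat.le_ceil _
  have hz1b : (z1 : ℝ) < t ^ (21 / 20 : ℝ) + 1 := Nat.ceil_lt_add_one (by positivity)
  have h1p : (1 : ℝ) ≤ t ^ (21 / 20 : ℝ) := one_le_rpow hc7 (by norm_num)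
  have hz1c : (z1 : ℝ) ≤ 2 * t ^ (21 / 20 : ℝ) := by linarith
  set z0 := ⌊δ / 4 * t⌋₊ with hz0
  have hz0a : (z0 : ℝ) ≤ δ / 4 * t := Nat.floor_le (by positivity)
  have hz0b : δ / 4 * t < z0 + 1 := Nat.lt_floor_add_one _
  have h24 : 24 ≤ δ * t := by
    rw [div_le_iff₀ hδ] at hc1
    linarith
  have hz0c : δ / 8 * t ≤ z0 := by linarith
  have hz03 : 3 ≤ z0 := by
    have : (3 : ℝ) ≤ z0 := by linarith
    exact_mod_cast this
  have hz0pos : (0 : ℝ) < z0 := by exact_mod_cast (by omega : 0 < z0)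
  have h01 : z0 ≤ z1 := by
    have : (z0 : ℝ) ≤ z1 := by linarith
    exact_mod_cast this
  have hz1pos : (0 : ℝ) < z1 := by linarith
  -- logarithm of z0
  have hlogz0 : log t - log (8 / δ) ≤ log (z0 : ℝ) := by
    rw [← log_div ht0.ne' (by positivity)]
    apply log_le_log (by positivity)
    have e : t / (8 / δ) = δ / 8 * t := by field_simp
    rw [e]; exact hz0c
  have hlogz0' : log (z0 : ℝ) ≤ 2 * log t := by
    calc log (z0 : ℝ) ≤ log (δ / 4 * t) := log_le_log hz0pos hz0a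
      _ = log (δ / 4) + log t := log_mul (by positivity) ht0.ne'
      _ ≤ 2 * log t := by linarith
  have hlogz0pos : 0 < log (z0 : ℝ) := log_pos (by exact_mod_cast (by omega : 1 < z0))
  -- the sum over the primes between
  have hsum : (∑ q ∈ (Ioc z0 z1).filter Nat.Prime, (1 : ℝ) / q) ≤ 1 / 4 := by
    refine (sum_inv_le (by omega) h01).trans ?_
    rw [div_le_iff₀ hlogz0pos]
    have h1 : log ((z1 : ℝ) / z0) + log 2 ≤ 1 / 20 * log t + log (32 / δ) := by
      rw [← log_mul (by positivity) (by norm_num)]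
      have e : 1 / 20 * log t + log (32 / δ) = log (t ^ (1 / 20 : ℝ) * (32 / δ)) := by
        rw [log_mul (by positivity) (by positivity), log_rpow ht0]
      rw [e]
      apply log_le_log (by positivity)
      rw [div_mul_eq_mul_div, div_le_iff₀ hz0pos]
      calc (z1 : ℝ) * 2 ≤ 4 * t ^ (21 / 20 : ℝ) := by linarith
        _ = t ^ (1 / 20 : ℝ) * (32 / δ) * (δ / 8 * t) := by
            have e : t ^ (21 / 20 : ℝ) = t ^ (1 / 20 : ℝ) * t := by
              nth_rw 3 [← rpow_one t]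
              rw [← rpow_add ht0]; norm_num
            rw [e]; field_simp; norm_num
        _ ≤ t ^ (1 / 20 : ℝ) * (32 / δ) * z0 := mul_le_mul_of_nonneg_left hz0c (by positivity)
    calc 4 * (log ((z1 : ℝ) / z0) + log 2) ≤ 4 * (1 / 20 * log t + log (32 / δ)) := by linarith
      _ ≤ 1 / 4 * (log t - log (8 / δ)) := hc3
      _ ≤ 1 / 4 * log z0 := by linarith
  -- size of the modulus
  set P := ∏ p ∈ pr z0, p with hP
  have hPpos : 0 < P := prod_pos fun q hq => (pr_prime q hq).pos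
  have hP0 : (0 : ℝ) < P := by exact_mod_cast hPpos
  have hPle : (P : ℝ) ≤ exp (δ * t / 2) := by
    calc (P : ℝ) ≤ (4 : ℝ) ^ z0 := by exact_mod_cast prod_pr_le z0
      _ = exp (log 4 * z0) := by
          rw [← rpow_natCast, rpow_def_of_pos (by norm_num)]
      _ ≤ exp (δ * t / 2) := by
          apply exp_le_exp.2
          have hl4 : log 4 ≤ 2 := by
            have : log 4 = 2 * log 2 := by
              rw [show (4 : ℝ) = 2 ^ 2 by norm_num, log_pow]; norm_num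
            have := log_two_lt_d9
            linarith
          calc log 4 * (z0 : ℝ) ≤ 2 * (δ / 4 * t) := by
                apply mul_le_mul hl4 hz0a hz0pos.le (by norm_num)
            _ = δ * t / 2 := by ring
  have hHP : 1 + 2 * (z1 : ℝ) ≤ H / P / 4 := by
    rw [div_div, le_div_iff₀ (by positivity)]
    have h1 : (z1 : ℝ) ≤ 2 * t ^ 2 := by
      have h2 : t ^ (21 / 20 : ℝ) ≤ t ^ (2 : ℝ) := rpow_le_rpow_of_exponent_le hc7 (by norm_num)
      rw [rpow_two] at h2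
      linarith
    have hXδ : (X : ℝ) ^ δ = exp (δ * t / 2) * exp (δ * t / 2) := by
      rw [← exp_add, rpow_def_of_pos hX0]
      congr 1
      ring
    calc (1 + 2 * (z1 : ℝ)) * (P * 4) ≤ (4 * (1 + 4 * t ^ 2)) * P := by
          have : (1 + 2 * (z1 : ℝ)) ≤ 1 + 4 * t ^ 2 := by linarith
          nlinarith
      _ ≤ exp (δ * t / 2) * exp (δ * t / 2) := by
          apply mul_le_mul hc4 hPle hP0.le (exp_pos _).le
      _ = (X : ℝ) ^ δ := hXδ.symm
      _ ≤ H := hH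
  -- number of classes
  have hW := card_good_ge (pr z0) pr_prime
  rw [← hP] at hW
  set W := (((range P).filter (Good (pr z0))).card : ℝ) with hWdef
  have hmain := rough_count_ge (z0 := z0) (z1 := z1) (by omega) u H
  rw [← hP, ← hWdef] at hmain
  refine le_trans ?_ hmain
  have hW0 : 0 ≤ W := by rw [hWdef]; positivity
  have hHP0 : 0 ≤ (H : ℝ) / P := by positivity
  have hstep : W * ((H : ℝ) / P / 4) ≤ W * ((H : ℝ) / P *
        (1 - 2 * ∑ q ∈ (Ioc z0 z1).filter Nat.Prime, (1 : ℝ) / q) - (1 + 2 * z1)) := by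
    apply mul_le_mul_of_nonneg_left _ hW0
    have h1 : (H : ℝ) / P * (1 / 2) ≤ (H : ℝ) / P *
        (1 - 2 * ∑ q ∈ (Ioc z0 z1).filter Nat.Prime, (1 : ℝ) / q) := by
      apply mul_le_mul_of_nonneg_left _ hHP0
      linarith
    linarith
  refine le_trans ?_ hstep
  have hsqrt : (∑ p ∈ pr z0, (1 : ℝ) / p) ≤ 5 * √(2 * log t) + 5 := by
    refine (sum_inv_le_sqrt hz03).trans ?_
    have := Real.sqrt_le_sqrt hlogz0'
    linarith
  have hexp : t ^ (-(1 / 1000) : ℝ) * 4 ≤ exp (-(4 * ∑ p ∈ pr z0, (1 : ℝ) / p)) := by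
    calc t ^ (-(1 / 1000) : ℝ) * 4 = exp (log t * (-(1 / 1000)) + log 4) := by
          rw [exp_add, exp_log (by norm_num), ← rpow_def_of_pos ht0]
      _ ≤ exp (-(4 * ∑ p ∈ pr z0, (1 : ℝ) / p)) := by
          apply exp_le_exp.2
          linarith
  calc (H : ℝ) * t ^ (-(1 / 1000) : ℝ) = (H : ℝ) * (t ^ (-(1 / 1000) : ℝ) * 4) / 4 := by ring
    _ ≤ (H : ℝ) * exp (-(4 * ∑ p ∈ pr z0, (1 : ℝ) / p)) / 4 := by
        apply div_le_div_of_nonneg_right _ (by norm_num)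
        exact mul_le_mul_of_nonneg_left hexp (by positivity)
    _ = ((P : ℝ) * exp (-(4 * ∑ p ∈ pr z0, (1 : ℝ) / p))) * ((H : ℝ) / P / 4) := by
        field_simp
    _ ≤ W * ((H : ℝ) / P / 4) := mul_le_mul_of_nonneg_right hW (by positivity)

end NSC
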